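import Mathlib
import Pool.Agent.TH165.ACC.NFin

/-!
# The order of a function for arbitrary integer weights
-/

set_option autoImplicit false
set_option linter.unusedSectionVars false

namespace Pool.Agent.N148.LS

open Pool.Agent.H436R3.Fol hiding ex
open Pool.Agent.H436R3.KT Pool.Agent.W497.Mld MvPolynomial
open Pool.Agent.TH165.ACC

variable {n : ℕ} {K : Type} [Field K] [Algebra ℂ K]
  [Algebra (MvPolynomial (Fin n) ℂ) K] [IsFractionRing (MvPolynomial (Fin n) ℂ) K]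
  [IsScalarTower ℂ (MvPolynomial (Fin n) ℂ) K]

/-- The order of `f` for the weights `u`: for a polynomial it is the least weight of a monomial. -/
noncomputable def mu (u : Fin n → ℤ) (f : K) : ℤ := (w0 K).ord (psi K u f)

theorem psi_ne (u : Fin n → ℤ) {f : K} (hf : f ≠ 0) : psi K u f ≠ 0 := (map_ne_zero _).2 hf

theorem mu_mul (u : Fin n → ℤ) {f g : K} (hf : f ≠ 0) (hg : g ≠ 0) :
    mu u (f * g) = mu u f + mu u g := by
  rw [mu, map_mul, (w0 K).map_mul _ _ (psi_ne u hf) (psi_ne u hg)]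
  rfl

theorem mu_one (u : Fin n → ℤ) : mu u (1 : K) = 0 := by
  rw [mu, map_one, (w0 K).ord_one]

theorem mu_jo (u : Fin n → ℤ) {p : MvPolynomial (Fin n) ℂ} (hp : p ≠ 0) :
    (∃ s ∈ p.support, mu u (jo (Fin n) K p) = pr (ex s) u) ∧
      ∀ s ∈ p.support, mu u (jo (Fin n) K p) ≤ pr (ex s) u := by
  rw [mu, psi_jo]
  exact (psi0_ord (K := K) u hp).2

theorem mu_cv (u : Fin n → ℤ) (i : Fin n) : mu u (cv K i) = u i := by
  obtain ⟨s, hs, h1⟩ := (mu_jo (K := K) u (X_ne_zero i)).1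
  rw [support_X, Finset.mem_singleton] at hs
  change mu u (jo (Fin n) K (X i)) = u i
  rw [h1, hs, pr, Finset.sum_eq_single i]
  · simp [ex]
  · intro j _ hj
    simp [ex, hj.symm]
  · intro h; exact absurd (Finset.mem_univ _) h

theorem mu_ym (u m : Fin n → ℤ) : mu u (ym K m) = pr m u := by
  rw [mu, ym, map_prod, (w0 K).ord_prod _ _ fun i _ => psi_ne u (zpow_ne_zero _ (cv_ne i)), pr]
  refine Finset.sum_congr rfl fun i _ => ?_
  rw [map_zpow₀, (w0 K).ord_zpow (psi_ne u (cv_ne i))]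
  have := mu_cv (K := K) u i
  rw [mu] at this
  rw [this]

/-- the value at a fraction -/
theorem mu_div (u : Fin n → ℤ) {f g : K} (hf : f ≠ 0) (hg : g ≠ 0) :
    mu u (f / g) = mu u f - mu u g := by
  rw [mu, map_div₀, (w0 K).ord_div (psi_ne u hf) (psi_ne u hg)]
  rfl

/-- monomial valuations -/
theorem mu_mon {v : DVal K} (hv : IsMonomial n v) {f : K} (hf : f ≠ 0) :
    v.ord f = mu (tv v : Fin n → ℤ) f := by
  have hjo : ∀ p : MvPolynomial (Fin n) ℂ, p ≠ 0 →
      v.ord (jo (Fin n) K p) = mu (tv v : Fin n → ℤ) (jo (Fin n) K p) := by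
    intro p hp
    obtain ⟨⟨s, hs, h1⟩, h2⟩ := hv p hp
    obtain ⟨⟨t, ht, h3⟩, h4⟩ := mu_jo (K := K) (tv v : Fin n → ℤ) hp
    have h5 := h2 t ht
    have h6 := h4 s hs
    omega
  obtain ⟨a, b, hb, rfl⟩ := exists_frac (MvPolynomial (Fin n) ℂ) f
  have ha : a ≠ 0 := by rintro rfl; simp at hf
  rw [← jo_apply, ← jo_apply, v.ord_div (jo_ne ha) (jo_ne hb), mu_div _ (jo_ne ha) (jo_ne hb),
    hjo a ha, hjo b hb]

/-- the order of a polynomial is at least the least weight of a monomial -/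
theorem mu_le_ord (v : DVal K) {p : MvPolynomial (Fin n) ℂ} (hp : p ≠ 0) :
    mu (tv v : Fin n → ℤ) (jo (Fin n) K p) ≤ v.ord (jo (Fin n) K p) := by
  obtain ⟨π, hπ, h1⟩ := v.surj
  have h2 := (mu_jo (K := K) (tv v : Fin n → ℤ) hp).2
  have h3 := (reg_mul_zpow hπ h1 h2).1
  have h4 := v.ord_nonneg (mul_ne_zero (jo_ne hp) (zpow_ne_zero _ hπ)) h3
  rw [v.map_mul _ _ (jo_ne hp) (zpow_ne_zero _ hπ), v.ord_zpow hπ, h1] at h4
  omega

theorem pr_add_right (m u u' : Fin n → ℤ) : pr m (u + u') = pr m u + pr m u' := by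
  simp only [pr, Pi.add_apply, mul_add, Finset.sum_add_distrib]

theorem pr_sum_right {ι : Type} (S : Finset ι) (m : Fin n → ℤ) (E : ι → Fin n → ℤ) :
    pr m (∑ i ∈ S, E i) = ∑ i ∈ S, pr m (E i) := by
  classical
  induction S using Finset.induction_on with
  | empty => simp [pr]
  | insert a S ha ih => rw [Finset.sum_insert ha, Finset.sum_insert ha, pr_add_right, ih]

/-- the order is a concave function of the weights -/
theorem mu_add (u u' : Fin n → ℤ) {p : MvPolynomial (Fin n) ℂ} (hp : p ≠ 0) :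
    mu u (jo (Fin n) K p) + mu u' (jo (Fin n) K p) ≤ mu (u + u') (jo (Fin n) K p) := by
  obtain ⟨⟨s, hs, h1⟩, -⟩ := mu_jo (K := K) (u + u') hp
  rw [h1, pr_add_right]
  exact add_le_add ((mu_jo (K := K) u hp).2 s hs) ((mu_jo (K := K) u' hp).2 s hs)

/-- The weight vector of a divisor over a point of `X` lies in the cone, and the characters which
do not vanish at the point are those of weight `0`. -/
theorem inCone_of_over {g : ToricGerm n K} {Q : Pt g.X} {v : DVal K} (h : IsOverGerm Q v) :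
    g.InCone (tv v) := by
  intro m hm
  obtain ⟨⟨S, -, hRS, hSv⟩, -⟩ := h
  have h1 : ym K m ∈ g.X.R := by rw [g.hR]; exact ym_mem_LA hm
  have h2 := v.ord_nonneg (ym_ne _) (hSv.1 _ (hRS h1))
  rwa [ord_ym] at h2

/-- regular functions have non-negative order for the weights in the cone -/
theorem mu_nonneg {g : ToricGerm n K} {u : Fin n → ℤ} (hu : g.InCone u) (f : g.X.R)
    (hf : (f : K) ≠ 0) : 0 ≤ mu u (f : K) := by
  obtain ⟨M, p, h1, -, h3⟩ := g.rep f
  have hp : p ≠ 0 := by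
    rintro rfl
    rw [map_zero] at h1
    exact mul_ne_zero hf (ym_ne _) h1
  obtain ⟨⟨s, hs, h4⟩, -⟩ := mu_jo (K := K) u hp
  rw [← h1, mu_mul u hf (ym_ne _), mu_ym] at h4
  have h5 := hu _ (h3 s hs)
  rw [pr_sub] at h5
  omega

/-- functions which do not vanish at the fixed point have order `0` for the weights in the cone -/
theorem mu_zero_of_ne {g : ToricGerm n K} {u : Fin n → ℤ} (hu : g.InCone u) {f : g.X.R}
    (hf : g.P f ≠ 0) : (f : K) ≠ 0 ∧ mu u (f : K) = 0 := by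
  have hf0 : (f : K) ≠ 0 := by
    intro h0
    apply hf
    have : f = 0 := Subtype.ext h0
    rw [this, map_zero]
  refine ⟨hf0, ?_⟩
  obtain ⟨M, p, h1, h2, h3⟩ := g.rep f
  have hp : p ≠ 0 := by
    rintro rfl
    rw [coeff_zero] at h2
    exact hf h2.symm
  have h4 := (mu_jo (K := K) u hp).2 M (mem_support_iff.2 (by rw [h2]; exact hf))
  rw [← h1, mu_mul u hf0 (ym_ne _), mu_ym] at h4
  have h5 := mu_nonneg hu f hf0
  omega

theorem pr_zero_right (m : Fin n → ℤ) : pr m 0 = 0 := by simp [pr]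

theorem mu_smul {k : ℤ} (hk : 0 ≤ k) (u : Fin n → ℤ) {f : K} (hf : f ≠ 0) :
    mu (k • u) f = k * mu u f := by
  have hjo : ∀ p : MvPolynomial (Fin n) ℂ, p ≠ 0 →
      mu (k • u) (jo (Fin n) K p) = k * mu u (jo (Fin n) K p) := by
    intro p hp
    obtain ⟨⟨s, hs, h1⟩, h2⟩ := mu_jo (K := K) (k • u) hp
    obtain ⟨⟨t, ht, h3⟩, h4⟩ := mu_jo (K := K) u hp
    have h5 := h2 t ht
    have h6 := mul_le_mul_of_nonneg_left (h4 s hs) hk
    rw [pr_smul_right] at h1 h5
    rw [← h3] at h5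
    rw [← h1] at h6
    exact le_antisymm h5 h6
  obtain ⟨a, b, hb, rfl⟩ := exists_frac (MvPolynomial (Fin n) ℂ) f
  have ha : a ≠ 0 := by rintro rfl; simp at hf
  rw [← jo_apply, ← jo_apply, mu_div _ (jo_ne ha) (jo_ne hb), mu_div _ (jo_ne ha) (jo_ne hb),
    hjo a ha, hjo b hb, mul_sub]

/-- the factorisation `fact` for arbitrary weights -/
theorem fact_mu {r : ℕ} (ρ : Fin r → ℝ) (g : Fin r → K) (hg : ∀ k, g k ≠ 0)
    {F : Finset (MvPolynomial (Fin n) ℂ)} {c : MvPolynomial (Fin n) ℂ → ℝ}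
    (hF : ∀ p ∈ F, p ≠ 0)
    (h : ∀ v : DVal K, ∑ k, ρ k * (v.ord (g k) : ℝ) =
        ∑ p ∈ F, c p * (v.ord (jo (Fin n) K p) : ℝ)) (u : Fin n → ℤ) :
    ∑ k, ρ k * (mu u (g k) : ℝ) = ∑ p ∈ F, c p * (mu u (jo (Fin n) K p) : ℝ) := by
  by_cases hu : u = 0
  · have h0 : ∀ f : K, f ≠ 0 → mu u f = 0 := by
      intro f hf
      have h1 := mu_smul (n := n) (le_refl (0 : ℤ)) u hf
      rwa [zero_smul, zero_mul, ← hu] at h1
    rw [Finset.sum_eq_zero fun k _ => by rw [h0 _ (hg k)]; simp,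
      Finset.sum_eq_zero fun p hp => by rw [h0 _ (jo_ne (hF p hp))]; simp]
  · obtain ⟨k, u', hk, hu', rfl⟩ := exists_prim hu
    obtain ⟨v, hv, rfl⟩ := exists_mon (K := K) hu'
    have h1 := congrArg (fun x => (k : ℝ) * x) (h v)
    simp only [Finset.mul_sum] at h1
    calc _ = ∑ i, (k : ℝ) * (ρ i * (v.ord (g i) : ℝ)) := Finset.sum_congr rfl fun i _ => by
            rw [mu_smul hk.le _ (hg i), ← mu_mon hv (hg i)]; push_cast; ring
      _ = ∑ p ∈ F, (k : ℝ) * (c p * (v.ord (jo (Fin n) K p) : ℝ)) := h1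
      _ = _ := Finset.sum_congr rfl fun p hp => by
            rw [mu_smul hk.le _ (jo_ne (hF p hp)), ← mu_mon hv (jo_ne (hF p hp))]; push_cast; ring

end Pool.Agent.N148.LS
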