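import Mathlib
import Pool.Agent.N148.LS.Mu

/-!
# Lower semicontinuity of minimal log discrepancies at the fixed point of a toric germ: statements
-/

set_option autoImplicit false
set_option linter.unusedSectionVars false

namespace Pool.Agent.N148.LS

open Pool.Agent.H436R3.Fol hiding ex
open Pool.Agent.H436R3.KT Pool.Agent.W497.Mld MvPolynomial
open Pool.Agent.TH165.ACC

section

variable {n : ℕ} {K : Type} [Field K] [Algebra ℂ K]
  [Algebra (MvPolynomial (Fin n) ℂ) K] [IsFractionRing (MvPolynomial (Fin n) ℂ) K]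
  [IsScalarTower ℂ (MvPolynomial (Fin n) ℂ) K]

/-- the excess of the order of `p` at `v` over the least weight of a monomial of `p` -/
noncomputable def D (v : DVal K) (p : MvPolynomial (Fin n) ℂ) : ℤ :=
  v.ord (jo (Fin n) K p) - mu (tv v : Fin n → ℤ) (jo (Fin n) K p)

/-- minus the order of the local equation of `K_X + B` for the weights `u` -/
noncomputable def amon {g : ToricGerm n K} {B : EffDiv g.X} (e : LocEq B g.P) (u : Fin n → ℤ) :
    ℝ := -∑ k, e.ρ k * (mu u (e.g k) : ℝ)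

/-- The prime polynomials `p j` define pairwise different prime divisors through the fixed point
which meet the torus, and the components of `B` through the fixed point which meet the torus are
among them; their coefficients are at most one. For all weights `u` in the cone, at every
point of the torus at most one of the initial forms vanishes, and its logarithmic gradient does not
vanish there. -/
structure Good (g : ToricGerm n K) (B : EffDiv g.X) {s : ℕ}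
    (p : Fin s → MvPolynomial (Fin n) ℂ) : Prop where
  prime : ∀ j, Prime (p j)
  thr : ∀ j, Thr g (p j)
  inj : ∀ i j, p i ∣ p j → i = j
  le_one : ∀ v, B.mult v ≤ 1
  cover : ∀ v, OnAt g.P v → (∀ i : Fin n, v.ord (cv K i) = 0) → B.mult v ≠ 0 →
    ∃ j, v.Pos (jo (Fin n) K (p j))
  nd : ∀ u, g.InCone u → ∀ ξ : Fin n → ℂ, (∀ i, ξ i ≠ 0) → ∀ j, eval ξ (lead u (p j)) = 0 →
    (∃ i, ξ i * eval ξ (pderiv i (lead u (p j))) ≠ 0) ∧
      ∀ j', eval ξ (lead u (p j')) = 0 → j' = j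

end

/-- (JAC) the Jacobian inequality for polynomials whose initial forms have linearly independent
logarithmic gradients at a point `ξ` of the torus on the centre of `v` (in normalised coordinates) -/
def S_JAC : Prop := ∀ (n : ℕ) (K : Type) [Field K] [Algebra ℂ K]
  [Algebra (MvPolynomial (Fin n) ℂ) K] [IsFractionRing (MvPolynomial (Fin n) ℂ) K]
  [IsScalarTower ℂ (MvPolynomial (Fin n) ℂ) K] (d : ℕ) (F : Foliation K d) (e : Fin d ≃ Fin n),
  (∀ i, F.D i = tor K (e i)) → ∀ (v : DVal K) (N : ℤ), IsCanOrd F v N →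
  ∀ (π : K) (hπ : π ≠ 0) (h1 : v.ord π = 1) (J : Type) [Fintype J] [DecidableEq J]
  (p : J → MvPolynomial (Fin n) ℂ) (ξ : Fin n → ℂ), (∀ j, p j ≠ 0) → (∀ i, ξ i ≠ 0) →
  (∀ q : MvPolynomial (Fin n) ℂ, v.Pos (Phi hπ h1 q : K) → eval ξ q = 0) →
  LinearIndependent ℂ (fun (j : J) (i : Fin n) =>
    ξ i * eval ξ (pderiv i (lead (tv v : Fin n → ℤ) (p j)))) →
  ∑ j, D v (p j) ≤ N + 1

/-- (XI) existence of points `ξ` of the torus on the centre of `v` outside of `q₀ = 0` -/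
def S_XI : Prop := ∀ (n : ℕ) (K : Type) [Field K] [Algebra ℂ K]
  [Algebra (MvPolynomial (Fin n) ℂ) K] [IsFractionRing (MvPolynomial (Fin n) ℂ) K]
  [IsScalarTower ℂ (MvPolynomial (Fin n) ℂ) K] (v : DVal K)
  (π : K) (hπ : π ≠ 0) (h1 : v.ord π = 1) (q₀ : MvPolynomial (Fin n) ℂ),
  ¬ v.Pos (Phi hπ h1 q₀ : K) →
  ∃ ξ : Fin n → ℂ, (∀ i, ξ i ≠ 0) ∧ eval ξ q₀ ≠ 0 ∧
    ∀ q : MvPolynomial (Fin n) ℂ, v.Pos (Phi hπ h1 q : K) → eval ξ q = 0

/-- (COMB) a minimal set of rays which together with `u` spans the interior of the cone -/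
def S_COMB : Prop := ∀ (n : ℕ) (K : Type) [Field K] [Algebra ℂ K]
  [Algebra (MvPolynomial (Fin n) ℂ) K] [IsFractionRing (MvPolynomial (Fin n) ℂ) K]
  [IsScalarTower ℂ (MvPolynomial (Fin n) ℂ) K] (g : ToricGerm n K) (u : Fin n → ℤ),
  g.InCone u → ∃ (S : Finset (Fin g.N)) (μ : Fin g.N → Fin n → ℤ),
    g.Inter (u + ∑ i ∈ S, g.E i) ∧
    (∀ i ∈ S, μ i ∈ Cn g.E ∧ pr (μ i) u = 0 ∧ 0 < pr (μ i) (g.E i) ∧
      ∀ j ∈ S, j ≠ i → pr (μ i) (g.E j) = 0) ∧
    -- characters in the double annihilator of the `μ i`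
    ∀ m : Fin n → ℤ, (∀ a : Fin n → ℤ, (∀ i ∈ S, pr (μ i) a = 0) → pr m a = 0) →
      (∀ i ∈ S, 0 ≤ pr m (g.E i)) → m ∈ Cn g.E

/-- (SEP) separation of the classes of monomials by Euler operators: if `h` lies in the subspace
`𝔭`, and the part of `h` in the class of `t` does not, then there are `f` in `𝔭` with monomials
of `h` and `a` in `T` such that `∑ a_i X_i ∂_i f` does not lie in `𝔭`. -/
def S_SEP : Prop := ∀ (n : ℕ) (𝔭 : Submodule ℂ (MvPolynomial (Fin n) ℂ))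
  (T : Set (Fin n → ℤ)) (h : MvPolynomial (Fin n) ℂ) (t : Fin n →₀ ℕ) (G : Finset (Fin n →₀ ℕ)),
  (∀ s, s ∈ G ↔ s ∈ h.support ∧ ∀ a ∈ T, pr (ex s - ex t) a = 0) → h ∈ 𝔭 →
  (∑ s ∈ G, monomial s (h.coeff s)) ∉ 𝔭 →
  ∃ f ∈ 𝔭, f.support ⊆ h.support ∧ ∃ a ∈ T, (∑ i, (a i : ℂ) • (X i * pderiv i f)) ∉ 𝔭

/-- (AMON) the log discrepancies of the monomial valuations are subadditive, with a gain -/
def S_AMON : Prop := ∀ (n : ℕ) (K : Type) [Field K] [Algebra ℂ K]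
  [Algebra (MvPolynomial (Fin n) ℂ) K] [IsFractionRing (MvPolynomial (Fin n) ℂ) K]
  [IsScalarTower ℂ (MvPolynomial (Fin n) ℂ) K] (g : ToricGerm n K) (B : EffDiv g.X)
  (e : LocEq B g.P) (u : Fin n → ℤ), g.InCone u → ∀ S : Finset (Fin g.N),
    amon e (u + ∑ i ∈ S, g.E i) ≤ amon e u + S.card ∧
    ∀ (p : MvPolynomial (Fin n) ℂ) (hp : Prime p), Thr g p →
      amon e (u + ∑ i ∈ S, g.E i) ≤ amon e u + S.card -
        B.mult (valP K p hp) * ((mu (u + ∑ i ∈ S, g.E i) (jo (Fin n) K p) -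
          mu u (jo (Fin n) K p) - ∑ i ∈ S, mu (g.E i) (jo (Fin n) K p) : ℤ) : ℝ)

/-- (NB1) near the fixed point only the `p j` count -/
def S_NB1 : Prop := ∀ (n : ℕ) (K : Type) [Field K] [Algebra ℂ K]
  [Algebra (MvPolynomial (Fin n) ℂ) K] [IsFractionRing (MvPolynomial (Fin n) ℂ) K]
  [IsScalarTower ℂ (MvPolynomial (Fin n) ℂ) K] (g : ToricGerm n K) (B : EffDiv g.X)
  (e : LocEq B g.P) (s : ℕ) (p : Fin s → MvPolynomial (Fin n) ℂ) (hp : Good g B p),
  ∃ f : g.X.R, g.P f ≠ 0 ∧ ∀ Q : Pt g.X, Q f ≠ 0 → ∀ v, IsOverGerm Q v →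
    amon e (tv v) - ∑ j, B.mult (valP K (p j) (hp.prime j)) * (D v (p j) : ℝ) ≤
      -∑ k, e.ρ k * (v.ord (e.g k) : ℝ)

/-- (NB2) the local equation at the fixed point is a local equation at all nearby points -/
def S_NB2 : Prop := ∀ (n : ℕ) (K : Type) [Field K] [Algebra ℂ K]
  [Algebra (MvPolynomial (Fin n) ℂ) K] [IsFractionRing (MvPolynomial (Fin n) ℂ) K]
  [IsScalarTower ℂ (MvPolynomial (Fin n) ℂ) K] (g : ToricGerm n K) (B : EffDiv g.X)
  (e : LocEq B g.P),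
  ∃ f : g.X.R, g.P f ≠ 0 ∧ ∀ Q : Pt g.X, Q f ≠ 0 → ∀ v, OnAt Q v →
    ∃ a : ℤ, IsCanOrd g.X.T v a ∧ (a : ℝ) + B.mult v = ∑ k, e.ρ k * (v.ord (e.g k) : ℝ)

/-- (NB3) parts of the polynomials `p j` which do not vanish near the fixed point, up to a
monomial -/
def S_NB3 : Prop := ∀ (n : ℕ) (K : Type) [Field K] [Algebra ℂ K]
  [Algebra (MvPolynomial (Fin n) ℂ) K] [IsFractionRing (MvPolynomial (Fin n) ℂ) K]
  [IsScalarTower ℂ (MvPolynomial (Fin n) ℂ) K] (g : ToricGerm n K) (s : ℕ)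
  (p : Fin s → MvPolynomial (Fin n) ℂ),
  ∃ f : g.X.R, g.P f ≠ 0 ∧ ∀ Q : Pt g.X, Q f ≠ 0 → ∀ v, IsOverGerm Q v →
    ∀ j, ∀ t ∈ (p j).support, ∀ G ⊆ (p j).support, t ∈ G → (∀ t' ∈ G, ex t' - ex t ∈ Cn g.E) →
      v.ord (jo (Fin n) K (∑ t' ∈ G, monomial t' ((p j).coeff t'))) = pr (ex t) (tv v)

end Pool.Agent.N148.LS
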