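import Mathlib
import Pool.Agent.N148.LS.Stm

/-!
# The log discrepancies of the monomial valuations are subadditive, with a gain
-/

set_option autoImplicit false
set_option linter.unusedSectionVars false

namespace Pool.Agent.N148.LS

open Pool.Agent.H436R3.Fol hiding ex
open Pool.Agent.H436R3.KT Pool.Agent.W497.Mld MvPolynomial
open Pool.Agent.TH165.ACC

namespace Amonpf

variable {n : ℕ} {K : Type} [Field K] [Algebra ℂ K]
  [Algebra (MvPolynomial (Fin n) ℂ) K] [IsFractionRing (MvPolynomial (Fin n) ℂ) K]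
  [IsScalarTower ℂ (MvPolynomial (Fin n) ℂ) K]

variable (K) in
/-- the gain -/
noncomputable def Dl {ι : Type} (u : Fin n → ℤ) (S : Finset ι) (E : ι → Fin n → ℤ)
    (p : MvPolynomial (Fin n) ℂ) : ℤ :=
  mu (u + ∑ i ∈ S, E i) (jo (Fin n) K p) - mu u (jo (Fin n) K p) -
    ∑ i ∈ S, mu (E i) (jo (Fin n) K p)

theorem mu_unit (u : Fin n → ℤ) {p : MvPolynomial (Fin n) ℂ} (hp : IsUnit p) :
    mu u (jo (Fin n) K p) = 0 := by
  have h1 := isUnit_iff_totalDegree_of_isReduced.1 hp
  have h2 := totalDegree_eq_zero_iff_eq_C.1 h1.2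
  have hp0 : p ≠ 0 := hp.ne_zero
  obtain ⟨s, hs, h3⟩ := (mu_jo (K := K) u hp0).1
  have hs0 : s = 0 := by
    by_contra hne
    rw [mem_support_iff, h2, coeff_C, if_neg (fun h => hne h.symm)] at hs
    exact hs rfl
  rw [h3, hs0, pr]
  refine Finset.sum_eq_zero fun i _ => ?_
  simp [ex]

theorem mu_assoc (u : Fin n → ℤ) {p q : MvPolynomial (Fin n) ℂ} (hp : p ≠ 0)
    (h : Associated p q) : mu u (jo (Fin n) K p) = mu u (jo (Fin n) K q) := by
  obtain ⟨c, rfl⟩ := h
  rw [map_mul, mu_mul u (jo_ne hp) (jo_ne c.isUnit.ne_zero), mu_unit u c.isUnit, add_zero]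

theorem Dl_assoc {ι : Type} (u : Fin n → ℤ) (S : Finset ι) (E : ι → Fin n → ℤ)
    {p q : MvPolynomial (Fin n) ℂ} (hp : p ≠ 0) (h : Associated p q) :
    Dl K u S E p = Dl K u S E q := by
  simp only [Dl, mu_assoc (K := K) _ hp h]

theorem Dl_nonneg {ι : Type} (u : Fin n → ℤ) (S : Finset ι) (E : ι → Fin n → ℤ)
    {p : MvPolynomial (Fin n) ℂ} (hp : p ≠ 0) : 0 ≤ Dl K u S E p := by
  classical
  induction S using Finset.induction_on with
  | empty => simp [Dl]
  | insert a S ha ih =>
    have h1 := mu_add (K := K) (u + ∑ i ∈ S, E i) (E a) hp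
    have h2 : u + ∑ i ∈ insert a S, E i = (u + ∑ i ∈ S, E i) + E a := by
      rw [Finset.sum_insert ha]
      abel
    simp only [Dl] at ih ⊢
    rw [h2, Finset.sum_insert ha]
    omega

theorem inCone_sum {g : ToricGerm n K} {u : Fin n → ℤ} (hu : g.InCone u)
    (S : Finset (Fin g.N)) : g.InCone (u + ∑ i ∈ S, g.E i) := by
  intro m hm
  rw [pr_add_right, pr_sum_right]
  exact add_nonneg (hu m hm) (Finset.sum_nonneg fun i _ => hm i)

theorem Dl_zero {g : ToricGerm n K} {u : Fin n → ℤ} (hu : g.InCone u) (S : Finset (Fin g.N))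
    {p : MvPolynomial (Fin n) ℂ} (hp : Prime p) (h : ¬ Thr g p) : Dl K u S g.E p = 0 := by
  by_cases h0 : ∀ i : Fin n, (valP K p hp).ord (cv K i) = 0
  · have hL := g.local_prime hp h0
    have h1 : ¬ OnAt g.P (valP K p hp) := fun h1 => h ⟨hp, h0, h1⟩
    have h2 : ∃ f : g.X.R, (valP K p hp).Pos (f : K) ∧ g.P f ≠ 0 := by
      by_contra h3
      push Not at h3
      exact h1 ⟨hL, h3⟩
    obtain ⟨f, hf, hPf⟩ := h2
    obtain ⟨M, q, e1, e2, -⟩ := g.rep f
    have hf0 : (f : K) ≠ 0 := by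
      intro h3
      apply hPf
      have : f = 0 := Subtype.ext h3
      rw [this, map_zero]
    have hq : q ≠ 0 := by
      rintro rfl
      rw [coeff_zero] at e2
      exact hPf e2.symm
    have hpq : p ∣ q := by
      by_contra h3
      have h4 := valP_other (K := K) hp hq h3
      have h7 : (tv (valP K p hp) : Fin n → ℤ) = 0 := funext h0
      rw [← e1, (valP K p hp).map_mul _ _ hf0 (ym_ne _), ord_ym, h7, pr] at h4
      simp only [Pi.zero_apply, mul_zero, Finset.sum_const_zero, add_zero] at h4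
      rcases hf with hf | hf
      · exact hf0 hf
      · omega
    obtain ⟨q', rfl⟩ := hpq
    have hq' : q' ≠ 0 := right_ne_zero_of_mul hq
    have hval : ∀ w : Fin n → ℤ, g.InCone w →
        mu w (jo (Fin n) K p) + mu w (jo (Fin n) K q') = pr (ex M) w := by
      intro w hw
      obtain ⟨-, h4⟩ := mu_zero_of_ne hw hPf
      have h5 : mu w (jo (Fin n) K (p * q')) = pr (ex M) w := by
        rw [← e1, mu_mul w hf0 (ym_ne _), h4, zero_add, mu_ym]
      rw [map_mul, mu_mul w (jo_ne hp.ne_zero) (jo_ne hq')] at h5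
      exact h5
    have hE : ∑ i ∈ S, mu (g.E i) (jo (Fin n) K p) + ∑ i ∈ S, mu (g.E i) (jo (Fin n) K q') =
        ∑ i ∈ S, pr (ex M) (g.E i) := by
      rw [← Finset.sum_add_distrib]
      exact Finset.sum_congr rfl fun i _ => hval _ (ToricGerm.inCone_E i)
    have h8 := hval _ (inCone_sum hu S)
    have h9 := hval _ hu
    rw [pr_add_right, pr_sum_right] at h8
    have h10 := Dl_nonneg (K := K) u S g.E hp.ne_zero
    have h11 := Dl_nonneg (K := K) u S g.E hq'
    simp only [Dl] at h10 h11 ⊢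
    omega
  · push Not at h0
    obtain ⟨k, hk⟩ := h0
    have h1 : p ∣ X k := by
      by_contra h3
      exact hk (valP_other (K := K) hp (X_ne_zero k) h3)
    have h2 : Associated p (X k) := hp.associated_of_dvd X_prime h1
    have h3 : ∀ w : Fin n → ℤ, mu w (jo (Fin n) K p) = w k := fun w => by
      rw [mu_assoc w hp.ne_zero h2]
      exact mu_cv w k
    simp only [Dl, h3, Pi.add_apply, Finset.sum_apply]
    ring

end Amonpf

open Amonpf

/-- the log discrepancies of the monomial valuations are subadditive, with a gain -/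
theorem t_AMON : S_AMON := by
  classical
  intro n K _ _ _ _ _ g B e u hu S
  obtain ⟨F, c, hFp, hFd, hc⟩ := fact (n := n) e.ρ e.g e.ne
  have hmu : ∀ w : Fin n → ℤ, amon e w = -∑ r ∈ F, c r * (mu w (jo (Fin n) K r) : ℝ) := by
    intro w
    rw [amon, fact_mu e.ρ e.g e.ne (fun p hp => (hFp p hp).ne_zero) hc w]
  -- the exact formula
  have hform : amon e (u + ∑ i ∈ S, g.E i) = amon e u + ∑ i ∈ S, amon e (g.E i) -
      ∑ r ∈ F, c r * (Dl K u S g.E r : ℝ) := by
    have h1 : ∑ i ∈ S, amon e (g.E i) =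
        -∑ r ∈ F, c r * ∑ i ∈ S, (mu (g.E i) (jo (Fin n) K r) : ℝ) := by
      simp only [hmu, Finset.sum_neg_distrib, Finset.mul_sum]
      rw [Finset.sum_comm]
    have h2 : ∑ r ∈ F, c r * (Dl K u S g.E r : ℝ) =
        ∑ r ∈ F, c r * (mu (u + ∑ i ∈ S, g.E i) (jo (Fin n) K r) : ℝ) -
        ∑ r ∈ F, c r * (mu u (jo (Fin n) K r) : ℝ) -
        ∑ r ∈ F, c r * ∑ i ∈ S, (mu (g.E i) (jo (Fin n) K r) : ℝ) := by
      rw [← Finset.sum_sub_distrib, ← Finset.sum_sub_distrib]
      refine Finset.sum_congr rfl fun r _ => ?_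
      simp only [Dl]
      push_cast
      ring
    rw [h1, h2, hmu, hmu]
    ring
  -- the rays
  have hE : ∀ i, amon e (g.E i) ≤ 1 := by
    intro i
    obtain ⟨v, hv, htv⟩ := exists_mon (K := K) (g.prim i)
    obtain ⟨b, hb, h2⟩ := e.eq v (ToricGerm.onAt_E hv htv)
    have h3 : b = -1 := hb.unique (can_mon g.e g.hT hv)
    have h4 : amon e (g.E i) = -∑ k, e.ρ k * (v.ord (e.g k) : ℝ) := by
      rw [amon]
      congr 1
      refine Finset.sum_congr rfl fun k _ => ?_
      rw [mu_mon hv (e.ne k), htv]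
    rw [h4, ← h2, h3]
    have h5 := mult_nonneg B v
    push_cast
    linarith
  have hEs : ∑ i ∈ S, amon e (g.E i) ≤ S.card := by
    calc ∑ i ∈ S, amon e (g.E i) ≤ ∑ _i ∈ S, (1 : ℝ) := Finset.sum_le_sum fun i _ => hE i
      _ = S.card := by simp
  -- the coefficients
  have hB : ∀ (p : MvPolynomial (Fin n) ℂ) (hp : Prime p), Thr g p →
      B.mult (valP K p hp) = ∑ r ∈ F, c r * ((valP K p hp).ord (jo (Fin n) K r) : ℝ) := by
    rintro p hp ⟨_, hcv, hon⟩
    obtain ⟨a, ha, h3⟩ := e.eq _ hon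
    have hL := g.local_prime hp hcv
    have h4 : a = 0 := ha.unique (can_unit g.e g.hT (by rw [← g.hR]; exact hL) hcv)
    rw [hc, h4, Int.cast_zero, zero_add] at h3
    exact h3
  have hBr : ∀ (p : MvPolynomial (Fin n) ℂ) (hp : Prime p), Thr g p → ∀ r ∈ F, p ∣ r →
      B.mult (valP K p hp) = c r := by
    intro p hp hT r hr hpr
    have has : Associated p r := hp.associated_of_dvd (hFp r hr) hpr
    rw [hB p hp hT, Finset.sum_eq_single r]
    · rw [← ord_assoc _ hp.ne_zero has, valP_self]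
      push_cast
      ring
    · intro q hq hqr
      rw [valP_other hp (hFp q hq).ne_zero fun h => hqr (hFd r hr q hq
        (has.symm.dvd.trans h)).symm]
      push_cast
      ring
    · intro h; exact absurd hr h
  have hterm : ∀ r ∈ F, 0 ≤ c r * (Dl K u S g.E r : ℝ) := by
    intro r hr
    by_cases hT : Thr g r
    · have h1 : 0 ≤ c r := by
        rw [← hBr r (hFp r hr) hT r hr dvd_rfl]
        exact mult_nonneg B _
      have h2 : (0 : ℝ) ≤ (Dl K u S g.E r : ℝ) := by
        exact_mod_cast Dl_nonneg (K := K) u S g.E (hFp r hr).ne_zero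
      exact mul_nonneg h1 h2
    · rw [Dl_zero hu S (hFp r hr) hT]
      simp
  constructor
  · have h1 := Finset.sum_nonneg hterm
    linarith
  · intro p hp hT
    change amon e (u + ∑ i ∈ S, g.E i) ≤ amon e u + S.card -
      B.mult (valP K p hp) * ((Dl K u S g.E p : ℤ) : ℝ)
    by_cases hex : ∃ r ∈ F, p ∣ r
    · obtain ⟨r, hr, hpr⟩ := hex
      have has : Associated p r := hp.associated_of_dvd (hFp r hr) hpr
      have h1 : c r * (Dl K u S g.E r : ℝ) ≤ ∑ r ∈ F, c r * (Dl K u S g.E r : ℝ) :=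
        Finset.single_le_sum hterm hr
      rw [hBr p hp hT r hr hpr, Dl_assoc u S g.E hp.ne_zero has]
      linarith
    · have h1 : B.mult (valP K p hp) = 0 := by
        rw [hB p hp hT]
        refine Finset.sum_eq_zero fun r hr => ?_
        rw [valP_other hp (hFp r hr).ne_zero fun h => hex ⟨r, hr, h⟩]
        simp
      have h2 := Finset.sum_nonneg hterm
      rw [h1]
      linarith

end Pool.Agent.N148.LS
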