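import Pool.Agent.N148.LS.Stm

/-!
# LS/COMB: minimal sets of rays (helper933)
-/

set_option autoImplicit false

namespace Pool.Agent.N148.LS

open Pool.Agent.H436R3.Fol hiding ex
open Pool.Agent.H436R3.KT Pool.Agent.W497.Mld MvPolynomial
open Pool.Agent.TH165.ACC

namespace CombX

theorem pr_sub_right {n : ℕ} (m u u' : Fin n → ℤ) : pr m (u - u') = pr m u - pr m u' := by
  simp [pr, mul_sub, Finset.sum_sub_distrib]

end CombX

open CombX in
theorem comb : S_COMB := by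
  classical
  intro n K _ _ _ _ _ g u hu
  have hf : ∀ (m : Fin n → ℤ) (S : Finset (Fin g.N)),
      pr m (u + ∑ i ∈ S, g.E i) = pr m u + ∑ i ∈ S, pr m (g.E i) := by
    intro m S
    rw [pr_add_right, pr_sum_right]
  have huniv : g.Inter (u + ∑ i ∈ Finset.univ, g.E i) := by
    intro m hm h0
    rw [hf]
    have h1 : 0 ≤ pr m u := hu m hm
    have h2 : 0 < ∑ i, pr m (g.E i) := by
      rcases (Finset.sum_nonneg (s := Finset.univ) (fun i _ => hm i)).lt_or_eq with h | h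
      · exact h
      · exfalso
        apply h0
        apply g.full
        intro i
        exact (Finset.sum_eq_zero_iff_of_nonneg (fun i _ => hm i)).1 h.symm i (Finset.mem_univ i)
    linarith
  obtain ⟨S, hS', hmin'⟩ := Finset.exists_min_image
    (Finset.univ.filter fun S : Finset (Fin g.N) => g.Inter (u + ∑ i ∈ S, g.E i)) Finset.card
    ⟨Finset.univ, by simpa using huniv⟩
  have hS : g.Inter (u + ∑ i ∈ S, g.E i) := (Finset.mem_filter.1 hS').2
  have hmin : ∀ T : Finset (Fin g.N), g.Inter (u + ∑ i ∈ T, g.E i) → S.card ≤ T.card :=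
    fun T hT => hmin' T (Finset.mem_filter.2 ⟨Finset.mem_univ _, hT⟩)
  have hchoose : ∀ i ∈ S, ∃ m ∈ Cn g.E, pr m u = 0 ∧ 0 < pr m (g.E i) ∧
      ∀ j ∈ S, j ≠ i → pr m (g.E j) = 0 := by
    intro i hi
    have hng : ¬ g.Inter (u + ∑ j ∈ S.erase i, g.E j) := by
      intro h
      have h1 := hmin _ h
      rw [Finset.card_erase_of_mem hi] at h1
      have h2 := Finset.card_pos.2 ⟨i, hi⟩
      omega
    have hng' : ∃ m ∈ Cn g.E, m ≠ 0 ∧ pr m (u + ∑ j ∈ S.erase i, g.E j) ≤ 0 := by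
      by_contra hcon
      push Not at hcon
      exact hng hcon
    obtain ⟨m, hm, h0, hle⟩ := hng'
    rw [hf] at hle
    have h1 : 0 ≤ pr m u := hu m hm
    have h2 : 0 ≤ ∑ j ∈ S.erase i, pr m (g.E j) := Finset.sum_nonneg fun j _ => hm j
    have h3 : pr m u = 0 := by linarith
    have h4 : ∑ j ∈ S.erase i, pr m (g.E j) = 0 := by linarith
    have h5 := (Finset.sum_eq_zero_iff_of_nonneg (fun j _ => hm j)).1 h4
    refine ⟨m, hm, h3, ?_, fun j hj hji => h5 j (Finset.mem_erase.2 ⟨hji, hj⟩)⟩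
    have h6 := hS m hm h0
    rw [hf, h3, zero_add, ← Finset.add_sum_erase S _ hi, h4, add_zero] at h6
    exact h6
  choose! μ hμ1 hμ2 hμ3 hμ4 using hchoose
  refine ⟨S, μ, hS, fun i hi => ⟨hμ1 i hi, hμ2 i hi, hμ3 i hi, hμ4 i hi⟩, ?_⟩
  intro m hm hpos l
  have hD : 0 < ∏ i ∈ S, pr (μ i) (g.E i) := Finset.prod_pos fun i hi => hμ3 i hi
  have hexp : ∀ m' : Fin n → ℤ, pr m' ((∏ i ∈ S, pr (μ i) (g.E i)) • g.E l -
      ∑ i ∈ S, (pr (μ i) (g.E l) * ∏ j ∈ S.erase i, pr (μ j) (g.E j)) • g.E i) =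
      (∏ i ∈ S, pr (μ i) (g.E i)) * pr m' (g.E l) -
      ∑ i ∈ S, (pr (μ i) (g.E l) * ∏ j ∈ S.erase i, pr (μ j) (g.E j)) * pr m' (g.E i) := by
    intro m'
    rw [pr_sub_right, pr_smul_right, pr_sum_right]
    congr 1
    refine Finset.sum_congr rfl fun i _ => ?_
    rw [pr_smul_right]
  have h1 := hm ((∏ i ∈ S, pr (μ i) (g.E i)) • g.E l -
      ∑ i ∈ S, (pr (μ i) (g.E l) * ∏ j ∈ S.erase i, pr (μ j) (g.E j)) • g.E i) (by
    intro i hi
    rw [hexp, Finset.sum_eq_single i]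
    · rw [mul_assoc, mul_comm (∏ j ∈ S.erase i, pr (μ j) (g.E j)),
        Finset.mul_prod_erase S (fun j => pr (μ j) (g.E j)) hi]
      ring
    · intro j hj hji
      rw [hμ4 i hi j hj hji, mul_zero]
    · intro h
      exact absurd hi h)
  rw [hexp] at h1
  have h2 : 0 ≤ ∑ i ∈ S, (pr (μ i) (g.E l) * ∏ j ∈ S.erase i, pr (μ j) (g.E j)) * pr m (g.E i) := by
    refine Finset.sum_nonneg fun i hi => ?_
    refine mul_nonneg (mul_nonneg (hμ1 i hi l) (Finset.prod_nonneg fun j hj => ?_)) (hpos i hi)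
    exact (hμ3 j (Finset.mem_of_mem_erase hj)).le
  have h3 : 0 ≤ (∏ i ∈ S, pr (μ i) (g.E i)) * pr m (g.E l) := by linarith
  exact nonneg_of_mul_nonneg_right h3 hD

end Pool.Agent.N148.LS
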