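import Mathlib
import Pool.Agent.N148.LS.Stm

/-!
# Preparations for the lower bound
-/

set_option autoImplicit false
set_option linter.unusedSectionVars false

namespace Pool.Agent.N148.LS

open Pool.Agent.H436R3.Fol hiding ex
open Pool.Agent.H436R3.KT Pool.Agent.W497.Mld MvPolynomial
open Pool.Agent.TH165.ACC

section lin

variable {V : Type} [AddCommGroup V] [Module ℂ V]

/-- exchange of a member of a linearly independent family -/
theorem exchange {J : Type} [Fintype J] [DecidableEq J] {w : J → V} (hw : LinearIndependent ℂ w)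
    {G : V} (hG : G ∈ Submodule.span ℂ (Set.range w)) (h0 : G ≠ 0) :
    ∃ i₀, LinearIndependent ℂ (Function.update w i₀ G) ∧
      Submodule.span ℂ (Set.range (Function.update w i₀ G)) ≤
        Submodule.span ℂ (Set.range w) := by
  obtain ⟨l, hl⟩ := (Submodule.mem_span_range_iff_exists_fun ℂ).1 hG
  obtain ⟨i₀, hi₀⟩ : ∃ i, l i ≠ 0 := by
    by_contra h
    push Not at h
    apply h0
    rw [← hl]
    exact Finset.sum_eq_zero fun i _ => by rw [h i, zero_smul]
  refine ⟨i₀, ?_, ?_⟩
  · rw [Fintype.linearIndependent_iff] at hw ⊢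
    intro c hc
    have h1 : ∑ i, (if i = i₀ then c i₀ * l i₀ else c i + c i₀ * l i) • w i = 0 := by
      rw [← hc]
      have e1 : ∑ i, c i • Function.update w i₀ G i =
          c i₀ • G + ∑ i ∈ Finset.univ.erase i₀, c i • w i := by
        rw [← Finset.add_sum_erase _ _ (Finset.mem_univ i₀), Function.update_self]
        congr 1
        refine Finset.sum_congr rfl fun i hi => ?_
        rw [Function.update_of_ne (Finset.ne_of_mem_erase hi)]
      have e2 : ∑ i, (if i = i₀ then c i₀ * l i₀ else c i + c i₀ * l i) • w i =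
          (c i₀ * l i₀) • w i₀ + ∑ i ∈ Finset.univ.erase i₀, (c i + c i₀ * l i) • w i := by
        rw [← Finset.add_sum_erase _ _ (Finset.mem_univ i₀), if_pos rfl]
        congr 1
        refine Finset.sum_congr rfl fun i hi => ?_
        rw [if_neg (Finset.ne_of_mem_erase hi)]
      rw [e1, e2, ← hl, Finset.smul_sum, ← Finset.add_sum_erase _ _ (Finset.mem_univ i₀)]
      simp only [add_smul, Finset.sum_add_distrib, smul_smul]
      abel
    have h2 := hw _ h1
    have h3 : c i₀ = 0 := by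
      have := h2 i₀
      rw [if_pos rfl] at this
      exact (mul_eq_zero.1 this).resolve_right hi₀
    intro i
    by_cases hi : i = i₀
    · rw [hi, h3]
    · have := h2 i
      rw [if_neg hi, h3, zero_mul, add_zero] at this
      exact this
  · rw [Submodule.span_le]
    rintro _ ⟨i, rfl⟩
    by_cases hi : i = i₀
    · subst hi
      rw [Function.update_self]
      exact hG
    · rw [Function.update_of_ne hi]
      exact Submodule.subset_span ⟨i, rfl⟩

end lin

section poly

variable {n : ℕ}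

theorem lead_of_hom {u : Fin n → ℤ} {m : ℤ} {q : MvPolynomial (Fin n) ℂ} (hq : q ≠ 0)
    (h : ∀ s ∈ q.support, pr (ex s) u = m) : lead u q = q := by
  classical
  have h1 : lead u q = ∑ s ∈ q.support, monomial s (q.coeff s) := by
    rw [lead]
    congr 1
    apply Finset.filter_true_of_mem
    intro s hs t ht
    rw [h s hs, h t ht]
  rw [h1]
  exact (q.as_sum).symm

theorem mem_lead {u : Fin n → ℤ} {q : MvPolynomial (Fin n) ℂ} {s : Fin n →₀ ℕ} :
    s ∈ (lead u q).support ↔ s ∈ q.support ∧ ∀ t ∈ q.support, pr (ex s) u ≤ pr (ex t) u := by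
  classical
  rw [mem_support_iff, lead, coeff_sum]
  simp only [coeff_monomial]
  rw [Finset.sum_ite_eq']
  simp only [Finset.mem_filter]
  constructor
  · intro h
    by_contra h1
    rw [if_neg h1] at h
    exact h rfl
  · intro h
    rw [if_pos h]
    exact mem_support_iff.1 h.1

theorem coeff_lead {u : Fin n → ℤ} {q : MvPolynomial (Fin n) ℂ} {s : Fin n →₀ ℕ}
    (h : s ∈ (lead u q).support) : (lead u q).coeff s = q.coeff s := by
  classical
  have h1 := mem_lead.1 h
  rw [lead, coeff_sum]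
  simp only [coeff_monomial]
  rw [Finset.sum_ite_eq']
  simp only [Finset.mem_filter]
  rw [if_pos h1]

/-- the logarithmic gradient of a binomial at a zero -/
theorem grad_binom (s t : Fin n →₀ ℕ) (c : ℂ) (ξ : Fin n → ℂ)
    (h0 : eval ξ (monomial s (1 : ℂ) - monomial t c) = 0) (l : Fin n) :
    ξ l * eval ξ (pderiv l (monomial s (1 : ℂ) - monomial t c)) =
      eval ξ (monomial s (1 : ℂ)) * ((ex s - ex t) l : ℂ) := by
  have h1 : ξ l * eval ξ (pderiv l (monomial s (1 : ℂ) - monomial t c)) =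
      eval ξ (X l * pderiv l (monomial s (1 : ℂ)) - X l * pderiv l (monomial t c)) := by
    rw [map_sub, map_sub, map_sub, map_mul, map_mul, eval_X]
    ring
  rw [map_sub] at h0
  rw [h1, X_mul_pderiv_monomial, X_mul_pderiv_monomial, map_sub, map_nsmul, map_nsmul,
    ← sub_eq_zero.1 h0]
  simp only [nsmul_eq_mul, Pi.sub_apply, ex]
  push_cast
  ring

theorem eval_monomial_ne (s : Fin n →₀ ℕ) {ξ : Fin n → ℂ} (hξ : ∀ i, ξ i ≠ 0) :
    eval ξ (monomial s (1 : ℂ)) ≠ 0 := by
  rw [eval_monomial, one_mul, Finsupp.prod]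
  exact Finset.prod_ne_zero_iff.2 fun i _ => pow_ne_zero _ (hξ i)

theorem eval_euler (a : Fin n → ℤ) (f : MvPolynomial (Fin n) ℂ) (ξ : Fin n → ℂ) :
    eval ξ (∑ i, (a i : ℂ) • (X i * pderiv i f)) =
      ∑ i, (a i : ℂ) * (ξ i * eval ξ (pderiv i f)) := by
  rw [map_sum]
  refine Finset.sum_congr rfl fun i _ => ?_
  rw [smul_eval, map_mul, eval_X]

end poly

section val

variable {n : ℕ} {K : Type} [Field K] [Algebra ℂ K]
  [Algebra (MvPolynomial (Fin n) ℂ) K] [IsFractionRing (MvPolynomial (Fin n) ℂ) K]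
  [IsScalarTower ℂ (MvPolynomial (Fin n) ℂ) K]

theorem D_nonneg (v : DVal K) {p : MvPolynomial (Fin n) ℂ} (hp : p ≠ 0) : 0 ≤ D v p := by
  have := mu_le_ord v hp
  rw [D]
  omega

/-- homogeneous polynomials in the normalised coordinates -/
theorem Phi_hom {v : DVal K} {π : K} (hπ : π ≠ 0) (h1 : v.ord π = 1) {m : ℤ}
    {q : MvPolynomial (Fin n) ℂ} (h : ∀ s ∈ q.support, pr (ex s) (tv v) = m) :
    (Phi hπ h1 q : K) = jo (Fin n) K q * π ^ (-m) := by
  have h2 : Phi hπ h1 q = ∑ s ∈ q.support, Phi hπ h1 (monomial s (q.coeff s)) := by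
    conv_lhs => rw [q.as_sum]
    rw [map_sum]
  have h3 : jo (Fin n) K q = ∑ s ∈ q.support, jo (Fin n) K (monomial s (q.coeff s)) := by
    conv_lhs => rw [q.as_sum]
    rw [map_sum]
  rw [h2, h3, Finset.sum_mul]
  push_cast
  refine Finset.sum_congr rfl fun s hs => ?_
  rw [Phi_monomial, h s hs]

/-- if the order of `q` is bigger than the least weight then the initial form vanishes on the
centre -/
theorem lead_pos {v : DVal K} {π : K} (hπ : π ≠ 0) (h1 : v.ord π = 1)
    {q : MvPolynomial (Fin n) ℂ} (hq : q ≠ 0) (h : 0 < D v q) :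
    v.Pos (Phi hπ h1 (lead (tv v : Fin n → ℤ) q) : K) := by
  obtain ⟨hm1, hm2⟩ := mu_jo (K := K) (tv v : Fin n → ℤ) hq
  set m := mu (tv v : Fin n → ℤ) (jo (Fin n) K q) with hm
  rw [lead_eq hm1 hm2]
  obtain ⟨h2, h3⟩ := reg_mul_zpow hπ h1 hm2
  have h4 : v.Pos (jo (Fin n) K q * π ^ (-m)) := by
    right
    rw [v.map_mul _ _ (jo_ne hq) (zpow_ne_zero _ hπ), v.ord_zpow hπ, h1]
    rw [D] at h
    omega
  have h5 : (Phi hπ h1 (part (tv v : Fin n → ℤ) m q) : K) = jo (Fin n) K q * π ^ (-m) +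
      (-1) * (jo (Fin n) K q * π ^ (-m) -
        (Phi hπ h1 (part (tv v : Fin n → ℤ) m q) : K)) := by ring
  rw [h5]
  refine v.pos_add h4 (v.pos_mul_left ?_ h3)
  exact v.reg_neg v.reg_one

/-- homogeneous polynomials which vanish on the centre -/
theorem D_pos_of_hom {v : DVal K} {π : K} (hπ : π ≠ 0) (h1 : v.ord π = 1) {m : ℤ}
    {q : MvPolynomial (Fin n) ℂ} (hq : q ≠ 0) (h : ∀ s ∈ q.support, pr (ex s) (tv v) = m)
    (hpos : v.Pos (Phi hπ h1 q : K)) : 1 ≤ D v q := by
  rw [Phi_hom hπ h1 h] at hpos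
  obtain ⟨⟨s, hs, h2⟩, -⟩ := mu_jo (K := K) (tv v : Fin n → ℤ) hq
  rw [h s hs] at h2
  rcases hpos with h3 | h3
  · exact absurd h3 (mul_ne_zero (jo_ne hq) (zpow_ne_zero _ hπ))
  · rw [v.map_mul _ _ (jo_ne hq) (zpow_ne_zero _ hπ), v.ord_zpow hπ, h1] at h3
    rw [D, h2]
    omega

end val

end Pool.Agent.N148.LS
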