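import Mathlib
import Pool.Agent.N148.LS.Prep

/-!
# The lower bound for log discrepancies near the fixed point
-/

set_option autoImplicit false
set_option linter.unusedSectionVars false

namespace Pool.Agent.N148.LS

open Pool.Agent.H436R3.Fol hiding ex
open Pool.Agent.H436R3.KT Pool.Agent.W497.Mld MvPolynomial
open Pool.Agent.TH165.ACC

variable {n : ℕ} {K : Type} [Field K] [Algebra ℂ K]
  [Algebra (MvPolynomial (Fin n) ℂ) K] [IsFractionRing (MvPolynomial (Fin n) ℂ) K]
  [IsScalarTower ℂ (MvPolynomial (Fin n) ℂ) K]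

theorem ym_add_sub (s t : Fin n →₀ ℕ) : ym K (ex s) = ym K (ex t) * ym K (ex s - ex t) := by
  rw [← ym_add, add_sub_cancel]

/-- the binomials attached to characters which do not vanish at `Q` -/
theorem exists_binom {g : ToricGerm n K} {Q : Pt g.X} {v : DVal K} (hov : IsOverGerm Q v)
    {m : Fin n → ℤ} (hm : m ∈ Cn g.E) (hmu : pr m (tv v) = 0) (hm0 : m ≠ 0) :
    ∃ (s t : Fin n →₀ ℕ) (c : ℂ), m = ex s - ex t ∧
      (monomial s (1 : ℂ) - monomial t c : MvPolynomial (Fin n) ℂ) ≠ 0 ∧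
      lead (tv v) (monomial s (1 : ℂ) - monomial t c) = monomial s (1 : ℂ) - monomial t c ∧
      1 ≤ D v (monomial s (1 : ℂ) - monomial t c) := by
  classical
  obtain ⟨s, t, hst⟩ := exists_nat_ex m
  have hmem : ym K m ∈ g.X.R := by rw [g.hR]; exact ym_mem_LA hm
  set y : g.X.R := ⟨ym K m, hmem⟩ with hy
  set c : ℂ := Q y with hc
  have hc0 : c ≠ 0 := by
    intro h0
    rcases (hov.2 y).2 h0 with h1 | h1
    · exact ym_ne m h1
    · change 0 < v.ord (ym K m) at h1
      rw [ord_ym, hmu] at h1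
      exact lt_irrefl _ h1
  have hne : s ≠ t := by
    rintro rfl
    exact hm0 (by rw [hst, sub_self])
  set q : MvPolynomial (Fin n) ℂ := monomial s (1 : ℂ) - monomial t c with hq
  have hcs : q.coeff s = 1 := by
    rw [hq, coeff_sub, coeff_monomial, coeff_monomial, if_pos rfl, if_neg hne.symm, sub_zero]
  have hct : q.coeff t = -c := by
    rw [hq, coeff_sub, coeff_monomial, coeff_monomial, if_pos rfl, if_neg hne, zero_sub]
  have hq0 : q ≠ 0 := by
    intro h0
    rw [h0, coeff_zero] at hcs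
    exact zero_ne_one hcs
  have hsup : ∀ r ∈ q.support, r = s ∨ r = t := by
    intro r hr
    by_contra h
    push Not at h
    rw [mem_support_iff, hq, coeff_sub, coeff_monomial, coeff_monomial, if_neg h.1.symm,
      if_neg h.2.symm, sub_zero] at hr
    exact hr rfl
  have hw : pr (ex s) (tv v) = pr (ex t) (tv v) := by
    rw [hst, pr_sub] at hmu
    omega
  have hhom : ∀ r ∈ q.support, pr (ex r) (tv v) = pr (ex t) (tv v) := by
    intro r hr
    rcases hsup r hr with rfl | rfl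
    · exact hw
    · rfl
  refine ⟨s, t, c, hst, hq0, lead_of_hom hq0 hhom, ?_⟩
  have hjo : jo (Fin n) K q = ym K (ex t) * (ym K m - algebraMap ℂ K c) := by
    rw [hq, map_sub, jo_monomial, jo_monomial, map_one, one_mul, hst, ym_add_sub s t]
    ring
  have hz : (ym K m - algebraMap ℂ K c) ≠ 0 := by
    intro h0
    rw [h0, mul_zero] at hjo
    exact jo_ne hq0 hjo
  have hQ : Q (y - algebraMap ℂ g.X.R c) = 0 := by
    rw [map_sub, AlgHom.commutes, ← hc]
    exact sub_self c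
  have hpos : 0 < v.ord (ym K m - algebraMap ℂ K c) := by
    rcases (hov.2 _).2 hQ with h1 | h1
    · exact absurd h1 hz
    · exact h1
  have hmu' : mu (tv v : Fin n → ℤ) (jo (Fin n) K q) = pr (ex t) (tv v) := by
    obtain ⟨⟨r, hr, h2⟩, -⟩ := mu_jo (K := K) (tv v : Fin n → ℤ) hq0
    rw [h2, hhom r hr]
  rw [D, hmu', hjo, v.map_mul _ _ (ym_ne _) hz, ord_ym]
  omega

/-- the family of binomials -/
theorem binoms {g : ToricGerm n K} {Q : Pt g.X} {v : DVal K} (hov : IsOverGerm Q v)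
    {S : Finset (Fin g.N)} {μ : Fin g.N → Fin n → ℤ}
    (hμ : ∀ i ∈ S, μ i ∈ Cn g.E ∧ pr (μ i) (tv v) = 0 ∧ 0 < pr (μ i) (g.E i) ∧
      ∀ j ∈ S, j ≠ i → pr (μ i) (g.E j) = 0) :
    ∃ q : ↥S → MvPolynomial (Fin n) ℂ, (∀ i, q i ≠ 0) ∧ (∀ i, 1 ≤ D v (q i)) ∧
      ∀ (π : K) (hπ : π ≠ 0) (h1 : v.ord π = 1) (ξ : Fin n → ℂ), (∀ i, ξ i ≠ 0) →
        (∀ q' : MvPolynomial (Fin n) ℂ, v.Pos (Phi hπ h1 q' : K) → eval ξ q' = 0) →
        LinearIndependent ℂ (fun (i : ↥S) (l : Fin n) =>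
          ξ l * eval ξ (pderiv l (lead (tv v : Fin n → ℤ) (q i)))) ∧
        ∀ a : Fin n → ℤ, (∀ i ∈ S, pr (μ i) a = 0) →
          ∀ x ∈ Submodule.span ℂ (Set.range (fun (i : ↥S) (l : Fin n) =>
            ξ l * eval ξ (pderiv l (lead (tv v : Fin n → ℤ) (q i))))),
            ∑ l, (a l : ℂ) * x l = 0 := by
  classical
  have h0 : ∀ i : ↥S, ∃ (s t : Fin n →₀ ℕ) (c : ℂ), μ i = ex s - ex t ∧
      (monomial s (1 : ℂ) - monomial t c : MvPolynomial (Fin n) ℂ) ≠ 0 ∧
      lead (tv v) (monomial s (1 : ℂ) - monomial t c) = monomial s (1 : ℂ) - monomial t c ∧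
      1 ≤ D v (monomial s (1 : ℂ) - monomial t c) := by
    intro i
    obtain ⟨h2, h3, h4, -⟩ := hμ i i.2
    refine exists_binom hov h2 h3 ?_
    intro h5
    rw [h5, pr_zero] at h4
    exact lt_irrefl _ h4
  choose s t c hst hne hlead hD using h0
  refine ⟨fun i => monomial (s i) (1 : ℂ) - monomial (t i) (c i), hne, hD, ?_⟩
  intro π hπ h1 ξ hξ hev
  have hgrad : ∀ i : ↥S, (fun l : Fin n => ξ l * eval ξ (pderiv l
      (lead (tv v : Fin n → ℤ) (monomial (s i) (1 : ℂ) - monomial (t i) (c i))))) =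
      fun l => eval ξ (monomial (s i) (1 : ℂ)) * ((μ i) l : ℂ) := by
    intro i
    funext l
    have h2 : eval ξ (monomial (s i) (1 : ℂ) - monomial (t i) (c i)) = 0 := by
      apply hev
      have h3 := lead_pos hπ h1 (hne i) (lt_of_lt_of_le one_pos (hD i))
      rwa [hlead i] at h3
    rw [hlead i, grad_binom _ _ _ _ h2, hst i]
  have hα : ∀ i : ↥S, eval ξ (monomial (s i) (1 : ℂ)) ≠ 0 := fun i => eval_monomial_ne _ hξ
  have hpair : ∀ (i : ↥S) (a : Fin n → ℤ),
      ∑ l, (a l : ℂ) * (eval ξ (monomial (s i) (1 : ℂ)) * ((μ i) l : ℂ)) =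
        eval ξ (monomial (s i) (1 : ℂ)) * (pr (μ i) a : ℂ) := by
    intro i a
    rw [pr]
    push_cast
    rw [Finset.mul_sum]
    exact Finset.sum_congr rfl fun l _ => by ring
  constructor
  · rw [Fintype.linearIndependent_iff]
    intro b hb j
    have h2 : ∑ l, (g.E j l : ℂ) * (∑ i : ↥S, b i • (fun l : Fin n => ξ l * eval ξ (pderiv l
      (lead (tv v : Fin n → ℤ) (monomial (s i) (1 : ℂ) - monomial (t i) (c i)))))) l = 0 := by
      rw [hb]
      simp
    simp only [hgrad, Finset.sum_apply, Pi.smul_apply, smul_eq_mul, Finset.mul_sum] at h2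
    rw [Finset.sum_comm] at h2
    have h3 : ∀ i : ↥S, ∑ l, (g.E j l : ℂ) *
        (b i * (eval ξ (monomial (s i) (1 : ℂ)) * ((μ i) l : ℂ))) =
        b i * (eval ξ (monomial (s i) (1 : ℂ)) * (pr (μ i) (g.E j) : ℂ)) := by
      intro i
      rw [← hpair, Finset.mul_sum]
      exact Finset.sum_congr rfl fun l _ => by ring
    rw [Finset.sum_congr rfl fun i _ => h3 i, Finset.sum_eq_single j] at h2
    · have h4 : (pr (μ j) (g.E j) : ℂ) ≠ 0 := by
        exact_mod_cast (hμ j j.2).2.2.1.ne'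
      exact (mul_eq_zero.1 h2).resolve_right (mul_ne_zero (hα j) h4)
    · intro i _ hij
      rw [(hμ i i.2).2.2.2 j j.2 (fun h => hij (Subtype.ext h.symm))]
      simp
    · intro h; exact absurd (Finset.mem_univ _) h
  · intro a ha x hx
    induction hx using Submodule.span_induction with
    | mem x hx =>
      obtain ⟨i, rfl⟩ := hx
      have h5 := hpair i a
      rw [ha i i.2, Int.cast_zero, mul_zero] at h5
      rw [← h5]
      exact Finset.sum_congr rfl fun l _ => congrArg _ (congrFun (hgrad i) l)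
    | zero => simp
    | add x y _ _ hx hy =>
      simp only [Pi.add_apply, mul_add, Finset.sum_add_distrib, hx, hy, add_zero]
    | smul r x _ hx =>
      simp only [Pi.smul_apply, smul_eq_mul]
      have : ∑ l, (a l : ℂ) * (r * x l) = r * ∑ l, (a l : ℂ) * x l := by
        rw [Finset.mul_sum]
        exact Finset.sum_congr rfl fun l _ => by ring
      rw [this, hx, mul_zero]

theorem card_le_sum {J : Type} [Fintype J] (f : J → ℤ) (h : ∀ i, 1 ≤ f i) :
    (Fintype.card J : ℤ) ≤ ∑ i, f i := by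
  calc (Fintype.card J : ℤ) = ∑ _i : J, (1 : ℤ) := by simp
    _ ≤ _ := Finset.sum_le_sum fun i _ => h i

theorem card_add_le_sum {J : Type} [Fintype J] [DecidableEq J] (f : J → ℤ) (i₀ : J) (d : ℤ)
    (h0 : f i₀ = d) (h : ∀ i, i ≠ i₀ → 1 ≤ f i) :
    (Fintype.card J : ℤ) - 1 + d ≤ ∑ i, f i := by
  rw [← Finset.add_sum_erase _ _ (Finset.mem_univ i₀), h0]
  have h1 : ((Finset.univ.erase i₀ : Finset J).card : ℤ) ≤
      ∑ i ∈ Finset.univ.erase i₀, f i := by
    calc ((Finset.univ.erase i₀ : Finset J).card : ℤ) =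
        ∑ _i ∈ Finset.univ.erase i₀, (1 : ℤ) := by simp
      _ ≤ _ := Finset.sum_le_sum fun i hi => h i (Finset.ne_of_mem_erase hi)
  have h2 : (Finset.univ.erase i₀ : Finset J).card + 1 = Fintype.card J :=
    Finset.card_erase_add_one (Finset.mem_univ i₀)
  omega

/-- The inequality for the canonical order: either `N + 1` is at least the excess of `p` plus the
number of rays, or it is so minus one, and then there is a gain in the order of `p`. -/
theorem key (hJAC : S_JAC) (hXI : S_XI) (hSEP : S_SEP) {g : ToricGerm n K} {Q : Pt g.X}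
    {v : DVal K} (hov : IsOverGerm Q v) {N : ℤ} (hN : IsCanOrd g.X.T v N)
    {S : Finset (Fin g.N)} {μ : Fin g.N → Fin n → ℤ}
    (hμ : ∀ i ∈ S, μ i ∈ Cn g.E ∧ pr (μ i) (tv v) = 0 ∧ 0 < pr (μ i) (g.E i) ∧
      ∀ j ∈ S, j ≠ i → pr (μ i) (g.E j) = 0)
    (hdd : ∀ m : Fin n → ℤ, (∀ a : Fin n → ℤ, (∀ i ∈ S, pr (μ i) a = 0) → pr m a = 0) →
      (∀ i ∈ S, 0 ≤ pr m (g.E i)) → m ∈ Cn g.E)
    {p : MvPolynomial (Fin n) ℂ} (hp : p ≠ 0)
    (hnd : ∀ ξ : Fin n → ℂ, (∀ i, ξ i ≠ 0) → eval ξ (lead (tv v : Fin n → ℤ) p) = 0 →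
      ∃ i, ξ i * eval ξ (pderiv i (lead (tv v : Fin n → ℤ) p)) ≠ 0)
    (hNB : ∀ t ∈ p.support, ∀ G ⊆ p.support, t ∈ G → (∀ t' ∈ G, ex t' - ex t ∈ Cn g.E) →
      v.ord (jo (Fin n) K (∑ t' ∈ G, monomial t' (p.coeff t'))) = pr (ex t) (tv v))
    (hD : 0 < D v p) :
    (S.card : ℤ) + D v p ≤ N + 1 ∨ ((S.card : ℤ) + D v p ≤ N + 2 ∧
      1 ≤ mu (tv v + ∑ i ∈ S, g.E i) (jo (Fin n) K p) - mu (tv v : Fin n → ℤ) (jo (Fin n) K p) -
        ∑ i ∈ S, mu (g.E i) (jo (Fin n) K p)) := by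
  classical
  obtain ⟨π, hπ, h1⟩ := v.surj
  obtain ⟨q, hq0, hqD, hq⟩ := binoms hov hμ
  set u : Fin n → ℤ := tv v with hu
  have hcardS : (Fintype.card ↥S : ℤ) = S.card := by rw [Fintype.card_coe]
  set h : MvPolynomial (Fin n) ℂ := lead u p with hh
  have hhpos : v.Pos (Phi hπ h1 h : K) := lead_pos hπ h1 hp hD
  by_cases hB : ∃ ξ : Fin n → ℂ, (∀ i, ξ i ≠ 0) ∧
      (∀ q' : MvPolynomial (Fin n) ℂ, v.Pos (Phi hπ h1 q' : K) → eval ξ q' = 0) ∧
      (fun l => ξ l * eval ξ (pderiv l h)) ∉ Submodule.span ℂ (Set.range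
        (fun (i : ↥S) (l : Fin n) => ξ l * eval ξ (pderiv l (lead u (q i)))))
  · obtain ⟨ξ, hξ, hev, hG⟩ := hB
    left
    obtain ⟨hli, -⟩ := hq π hπ h1 ξ hξ hev
    have h2 := hJAC n K g.X.d g.X.T g.e g.hT v N hN π hπ h1 (Option ↥S)
      (fun o => o.elim p q) ξ (by rintro (_ | i); exacts [hp, hq0 i]) hξ hev
      (by
        rw [linearIndependent_option]
        exact ⟨hli, hG⟩)
    rw [Fintype.sum_option] at h2
    have h3 := card_le_sum (fun i : ↥S => D v (q i)) hqD
    rw [hcardS] at h3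
    change D v p + ∑ i : ↥S, D v (q i) ≤ N + 1 at h2
    linarith
  push Not at hB
  -- all gradients lie in the span
  have hex : ∀ ξ : Fin n → ℂ, (∀ i, ξ i ≠ 0) →
      (∀ q' : MvPolynomial (Fin n) ℂ, v.Pos (Phi hπ h1 q' : K) → eval ξ q' = 0) →
      ∃ i₀ : ↥S, LinearIndependent ℂ (Function.update
        (fun (i : ↥S) (l : Fin n) => ξ l * eval ξ (pderiv l (lead u (q i)))) i₀
          (fun l => ξ l * eval ξ (pderiv l h))) ∧
        Submodule.span ℂ (Set.range (Function.update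
        (fun (i : ↥S) (l : Fin n) => ξ l * eval ξ (pderiv l (lead u (q i)))) i₀
          (fun l => ξ l * eval ξ (pderiv l h)))) ≤ Submodule.span ℂ (Set.range
        (fun (i : ↥S) (l : Fin n) => ξ l * eval ξ (pderiv l (lead u (q i))))) := by
    intro ξ hξ hev
    refine exchange (hq π hπ h1 ξ hξ hev).1 (hB ξ hξ hev) ?_
    obtain ⟨i, hi⟩ := hnd ξ hξ (hev h hhpos)
    exact fun h0 => hi (congrFun h0 i)
  have hfam : ∀ (ξ : Fin n → ℂ) (i₀ : ↥S), Function.update
        (fun (i : ↥S) (l : Fin n) => ξ l * eval ξ (pderiv l (lead u (q i)))) i₀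
          (fun l => ξ l * eval ξ (pderiv l h)) = fun (i : ↥S) (l : Fin n) =>
            ξ l * eval ξ (pderiv l (lead u (Function.update q i₀ p i))) := by
    intro ξ i₀
    funext i
    by_cases hi : i = i₀
    · subst hi
      rw [Function.update_self, Function.update_self]
    · rw [Function.update_of_ne hi, Function.update_of_ne hi]
  have hne' : ∀ (i₀ : ↥S) i, Function.update q i₀ p i ≠ 0 := by
    intro i₀ i
    by_cases hi : i = i₀
    · subst hi; rw [Function.update_self]; exact hp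
    · rw [Function.update_of_ne hi]; exact hq0 i
  have hsum' : ∀ i₀ : ↥S, (S.card : ℤ) - 1 + D v p ≤
      ∑ i, D v (Function.update q i₀ p i) := by
    intro i₀
    rw [← hcardS]
    refine card_add_le_sum (fun i => D v (Function.update q i₀ p i)) i₀ (D v p) ?_ ?_
    · simp only [Function.update_self]
    · intro i hi
      simp only [Function.update_of_ne hi]
      exact hqD i
  by_cases hgain : 1 ≤ mu (u + ∑ i ∈ S, g.E i) (jo (Fin n) K p) - mu u (jo (Fin n) K p) -
        ∑ i ∈ S, mu (g.E i) (jo (Fin n) K p)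
  · right
    refine ⟨?_, hgain⟩
    obtain ⟨ξ, hξ, -, hev⟩ := hXI n K v π hπ h1 1 (by
      rw [map_one]
      rintro (h0 | h0)
      · exact one_ne_zero h0
      · change 0 < v.ord (1 : K) at h0
        rw [v.ord_one] at h0
        exact lt_irrefl _ h0)
    obtain ⟨i₀, hli, -⟩ := hex ξ hξ hev
    rw [hfam] at hli
    have h2 := hJAC n K g.X.d g.X.T g.e g.hT v N hN π hπ h1 ↥S
      (Function.update q i₀ p) ξ (hne' i₀) hξ hev hli
    have h3 := hsum' i₀
    linarith
  · left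
    -- a common minimal monomial
    obtain ⟨⟨t, ht, h2⟩, -⟩ := mu_jo (K := K) (u + ∑ i ∈ S, g.E i) hp
    rw [pr_add_right, pr_sum_right] at h2
    have h3 := (mu_jo (K := K) u hp).2 t ht
    have h4 : ∀ i ∈ S, mu (g.E i) (jo (Fin n) K p) ≤ pr (ex t) (g.E i) := fun i _ =>
      (mu_jo (K := K) (g.E i) hp).2 t ht
    have h5 := Finset.sum_le_sum h4
    have h6 : mu u (jo (Fin n) K p) = pr (ex t) u := by omega
    have h7 : ∑ i ∈ S, mu (g.E i) (jo (Fin n) K p) = ∑ i ∈ S, pr (ex t) (g.E i) := by omega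
    have h8 : ∀ i ∈ S, mu (g.E i) (jo (Fin n) K p) = pr (ex t) (g.E i) :=
      (Finset.sum_eq_sum_iff_of_le h4).1 h7
    have hth : t ∈ h.support := by
      rw [hh, mem_lead]
      refine ⟨ht, fun r hr => ?_⟩
      rw [← h6]
      exact (mu_jo (K := K) u hp).2 r hr
    have hsub : h.support ⊆ p.support := fun r hr => (mem_lead.1 hr).1
    have hhom : ∀ r ∈ h.support, pr (ex r) u = pr (ex t) u := by
      intro r hr
      have h9 := (mem_lead.1 hr).2 t ht
      have h10 := (mem_lead.1 hth).2 r (hsub hr)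
      omega
    let T : Set (Fin n → ℤ) := {a | ∀ i ∈ S, pr (μ i) a = 0}
    let G : Finset (Fin n →₀ ℕ) := h.support.filter fun s => ∀ a ∈ T, pr (ex s - ex t) a = 0
    have hGsub : G ⊆ h.support := Finset.filter_subset _ _
    have htG : t ∈ G := by
      refine Finset.mem_filter.2 ⟨hth, fun a _ => ?_⟩
      rw [sub_self, pr_zero]
    have hGC : ∀ t' ∈ G, ex t' - ex t ∈ Cn g.E := by
      intro r hr
      refine hdd _ (Finset.mem_filter.1 hr).2 fun i hi => ?_
      rw [pr_sub, ← h8 i hi]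
      have := (mu_jo (K := K) (g.E i) hp).2 r (hsub (hGsub hr))
      omega
    have hord := hNB t ht G (hGsub.trans hsub) htG hGC
    have hcoef : (∑ s ∈ G, monomial s (h.coeff s)) = ∑ s ∈ G, monomial s (p.coeff s) :=
      Finset.sum_congr rfl fun s hs => by rw [coeff_lead (hGsub hs)]
    set hG : MvPolynomial (Fin n) ℂ := ∑ s ∈ G, monomial s (p.coeff s) with hGdef
    have hcG : ∀ r, hG.coeff r = if r ∈ G then p.coeff r else 0 := by
      intro r
      rw [hGdef, coeff_sum]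
      simp only [coeff_monomial]
      rw [Finset.sum_ite_eq']
    have hG0 : hG ≠ 0 := by
      intro h0
      have h9 := hcG t
      rw [h0, coeff_zero, if_pos htG] at h9
      exact (mem_support_iff.1 ht) h9.symm
    have hGhom : ∀ r ∈ hG.support, pr (ex r) u = pr (ex t) u := by
      intro r hr
      rw [mem_support_iff, hcG] at hr
      apply hhom
      by_contra h9
      rw [if_neg (fun h10 => h9 (hGsub h10))] at hr
      exact hr rfl
    have hGnot : ¬ v.Pos (Phi hπ h1 hG : K) := by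
      rw [Phi_hom hπ h1 hGhom]
      rintro (h9 | h9)
      · exact mul_ne_zero (jo_ne hG0) (zpow_ne_zero _ hπ) h9
      · rw [v.map_mul _ _ (jo_ne hG0) (zpow_ne_zero _ hπ), v.ord_zpow hπ, h1, hord] at h9
        omega
    let 𝔭 : Submodule ℂ (MvPolynomial (Fin n) ℂ) :=
      ((mvI v).comap (Phi hπ h1)).restrictScalars ℂ
    have hmem : ∀ f : MvPolynomial (Fin n) ℂ, f ∈ 𝔭 ↔ v.Pos (Phi hπ h1 f : K) := fun f => Iff.rfl
    obtain ⟨f, hf, hfsub, a, ha, hfa⟩ := hSEP n 𝔭 T h t G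
      (fun s => by rw [Finset.mem_filter]) ((hmem h).2 hhpos)
      (by rw [hcoef, hmem]; exact hGnot)
    rw [hmem] at hf hfa
    obtain ⟨ξ, hξ, hξa, hev⟩ := hXI n K v π hπ h1 _ hfa
    have hf0 : f ≠ 0 := by
      rintro rfl
      apply hξa
      simp
    have hfhom : ∀ r ∈ f.support, pr (ex r) u = pr (ex t) u := fun r hr => hhom r (hfsub hr)
    have hfD : 1 ≤ D v f := D_pos_of_hom hπ h1 hf0 hfhom hf
    obtain ⟨i₀, hli, hle⟩ := hex ξ hξ hev
    have hfG : (fun l => ξ l * eval ξ (pderiv l (lead u f))) ∉ Submodule.span ℂ (Set.range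
        (fun (i : ↥S) (l : Fin n) => ξ l * eval ξ (pderiv l (lead u (q i))))) := by
      intro h9
      have h10 := (hq π hπ h1 ξ hξ hev).2 a ha _ h9
      apply hξa
      rw [eval_euler, ← h10, lead_of_hom hf0 hfhom]
    rw [hfam] at hli hle
    have h9 := hJAC n K g.X.d g.X.T g.e g.hT v N hN π hπ h1 (Option ↥S)
      (fun o => o.elim f (Function.update q i₀ p)) ξ
      (by rintro (_ | i); exacts [hf0, hne' i₀ i]) hξ hev
      (by
        rw [linearIndependent_option]
        exact ⟨hli, fun h11 => hfG (hle h11)⟩)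
    rw [Fintype.sum_option] at h9
    have h10 := hsum' i₀
    change D v f + ∑ i : ↥S, D v (Function.update q i₀ p i) ≤ N + 1 at h9
    linarith

end Pool.Agent.N148.LS
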