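import Mathlib
import Pool.Agent.N148.LS.Main

/-!
# Log discrepancies near the fixed point and at the fixed point
-/

set_option autoImplicit false
set_option linter.unusedSectionVars false

namespace Pool.Agent.N148.LS

open Pool.Agent.H436R3.Fol hiding ex
open Pool.Agent.H436R3.KT Pool.Agent.W497.Mld MvPolynomial
open Pool.Agent.TH165.ACC

variable {n : ℕ} {K : Type} [Field K] [Algebra ℂ K]
  [Algebra (MvPolynomial (Fin n) ℂ) K] [IsFractionRing (MvPolynomial (Fin n) ℂ) K]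
  [IsScalarTower ℂ (MvPolynomial (Fin n) ℂ) K]

/-- For every divisor `v` over a point near the fixed point there are weights in the interior of
the cone whose log discrepancy is at most the one of `v`. -/
theorem main_lower (hJAC : S_JAC) (hXI : S_XI) (hCOMB : S_COMB) (hSEP : S_SEP) (hAMON : S_AMON)
    (hNB1 : S_NB1) (hNB3 : S_NB3) {g : ToricGerm n K} {B : EffDiv g.X} (e : LocEq B g.P) {s : ℕ}
    {p : Fin s → MvPolynomial (Fin n) ℂ} (hp : Good g B p) :
    ∃ f : g.X.R, g.P f ≠ 0 ∧ ∀ Q : Pt g.X, Q f ≠ 0 → ∀ v, IsOverGerm Q v →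
      ∀ N, IsCanOrd g.X.T v N → ∃ u', g.Inter u' ∧
        amon e u' ≤ 1 + (N : ℝ) - ∑ k, e.ρ k * (v.ord (e.g k) : ℝ) := by
  classical
  obtain ⟨f1, hf1, h1⟩ := hNB1 n K g B e s p hp
  obtain ⟨f3, hf3, h3⟩ := hNB3 n K g s p
  refine ⟨f1 * f3, by rw [map_mul]; exact mul_ne_zero hf1 hf3, ?_⟩
  intro Q hQ v hov N hN
  rw [map_mul] at hQ
  have h1' := h1 Q (left_ne_zero_of_mul hQ) v hov
  have h3' := h3 Q (right_ne_zero_of_mul hQ) v hov
  have hu : g.InCone (tv v) := inCone_of_over hov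
  obtain ⟨S, μ, hInt, hμ, hdd⟩ := hCOMB n K g (tv v) hu
  refine ⟨_, hInt, ?_⟩
  obtain ⟨hA1, hA2⟩ := hAMON n K g B e (tv v) hu S
  have hp0 : ∀ j, p j ≠ 0 := fun j => (hp.prime j).ne_zero
  obtain ⟨π, hπ, hπ1⟩ := v.surj
  have hone : ¬ v.Pos (Phi hπ hπ1 (1 : MvPolynomial (Fin n) ℂ) : K) := by
    rw [map_one]
    rintro (h0 | h0)
    · exact one_ne_zero h0
    · change 0 < v.ord (1 : K) at h0
      rw [v.ord_one] at h0
      exact lt_irrefl _ h0
  obtain ⟨ξ, hξ, -, hev⟩ := hXI n K v π hπ hπ1 1 hone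
  by_cases hD : ∃ j, 0 < D v (p j)
  · obtain ⟨j₀, hj₀⟩ := hD
    have hoth : ∀ j, j ≠ j₀ → D v (p j) = 0 := by
      intro j hj
      by_contra h
      have h5 : 0 < D v (p j) := lt_of_le_of_ne (D_nonneg v (hp0 j)) (Ne.symm h)
      have h6 := hev _ (lead_pos hπ hπ1 (hp0 j) h5)
      have h7 := hev _ (lead_pos hπ hπ1 (hp0 j₀) hj₀)
      exact hj ((hp.nd _ hu ξ hξ j₀ h7).2 j h6)
    set b : ℝ := B.mult (valP K (p j₀) (hp.prime j₀)) with hb
    have hb0 : 0 ≤ b := mult_nonneg B _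
    have hb1 : b ≤ 1 := hp.le_one _
    have hsum : ∑ j, B.mult (valP K (p j) (hp.prime j)) * (D v (p j) : ℝ) =
        b * (D v (p j₀) : ℝ) := by
      rw [Finset.sum_eq_single j₀]
      · intro j _ hj
        rw [hoth j hj]
        simp
      · intro h; exact absurd (Finset.mem_univ _) h
    rw [hsum] at h1'
    have hk := key hJAC hXI hSEP hov hN hμ hdd (hp0 j₀)
      (fun ξ hξ h => (hp.nd _ hu ξ hξ j₀ h).1) (fun t ht G hG htG hC => h3' j₀ t ht G hG htG hC)
      hj₀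
    have hDr : (1 : ℝ) ≤ (D v (p j₀) : ℝ) := by exact_mod_cast hj₀
    rcases hk with hk | ⟨hk, hgain⟩
    · have hk' : (S.card : ℝ) + (D v (p j₀) : ℝ) ≤ (N : ℝ) + 1 := by exact_mod_cast hk
      nlinarith
    · have hk' : (S.card : ℝ) + (D v (p j₀) : ℝ) ≤ (N : ℝ) + 2 := by exact_mod_cast hk
      have hgain' : (1 : ℝ) ≤ ((mu (tv v + ∑ i ∈ S, g.E i) (jo (Fin n) K (p j₀)) -
          mu (tv v : Fin n → ℤ) (jo (Fin n) K (p j₀)) -
          ∑ i ∈ S, mu (g.E i) (jo (Fin n) K (p j₀)) : ℤ) : ℝ) := by exact_mod_cast hgain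
      have hA3 := hA2 (p j₀) (hp.prime j₀) (hp.thr j₀)
      rw [← hb] at hA3
      have h8 := mul_le_mul_of_nonneg_left hgain' hb0
      nlinarith
  · push Not at hD
    have hD0 : ∀ j, D v (p j) = 0 := fun j => le_antisymm (hD j) (D_nonneg v (hp0 j))
    have hsum : ∑ j, B.mult (valP K (p j) (hp.prime j)) * (D v (p j) : ℝ) = 0 :=
      Finset.sum_eq_zero fun j _ => by rw [hD0 j]; simp
    rw [hsum] at h1'
    obtain ⟨q, hq0, hqD, hq⟩ := binoms hov hμ
    have h5 := hJAC n K g.X.d g.X.T g.e g.hT v N hN π hπ hπ1 ↥S q ξ hq0 hξ hev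
      (hq π hπ hπ1 ξ hξ hev).1
    have h6 := card_le_sum (fun i : ↥S => D v (q i)) hqD
    rw [Fintype.card_coe] at h6
    have h7 : (S.card : ℝ) ≤ (N : ℝ) + 1 := by exact_mod_cast h6.trans h5
    linarith

theorem amon_smul {g : ToricGerm n K} {B : EffDiv g.X} (e : LocEq B g.P) {k : ℤ} (hk : 0 ≤ k)
    (u : Fin n → ℤ) : amon e (k • u) = k * amon e u := by
  rw [amon, amon, mul_neg, Finset.mul_sum]
  congr 1
  refine Finset.sum_congr rfl fun i _ => ?_
  rw [mu_smul hk _ (e.ne i)]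
  push_cast
  ring

theorem pos_of_dval (g : ToricGerm n K) (v : DVal K) : 0 < n := by
  by_contra h
  have hn : n = 0 := by omega
  subst hn
  have h1 : g.Inter (tv v) := fun m _ hm => absurd (Subsingleton.elim m 0) hm
  exact ne_zero_of_inter h1 (Subsingleton.elim _ _)

/-- weights in the interior of the cone give divisors over the fixed point -/
theorem exists_over {g : ToricGerm n K} {B : EffDiv g.X} (e : LocEq B g.P) (v₀ : DVal K)
    {u' : Fin n → ℤ} (hu' : g.Inter u') :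
    ∃ v, IsOverGerm g.P v ∧ ∃ a, IsLogDisc e v a ∧ (0 ≤ a → a ≤ amon e u') ∧
      (a < 0 ∨ 0 ≤ amon e u') := by
  have hn := pos_of_dval g v₀
  obtain ⟨k, u'', hk, hprim, rfl⟩ := exists_prim (hu'.ne_zero hn)
  obtain ⟨v, hv, rfl⟩ := exists_mon (K := K) hprim
  have hint : g.Inter (tv v) := by
    intro r hr hr0
    have h1 := hu' r hr hr0
    rw [pr_smul_right] at h1
    exact (pos_iff_pos_of_mul_pos h1).1 hk
  have ha : -∑ k, e.ρ k * (v.ord (e.g k) : ℝ) = amon e (tv v : Fin n → ℤ) := by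
    rw [amon]
    congr 1
    exact Finset.sum_congr rfl fun i _ => by rw [mu_mon hv (e.ne i)]
  refine ⟨v, ToricGerm.overGerm hv hint, amon e (tv v : Fin n → ℤ), ?_, ?_, ?_⟩
  · rw [← ha]
    exact (logDisc_mon hv).2 rfl
  · intro h0
    rw [amon_smul e hk.le]
    have h1 : (1 : ℝ) ≤ k := by exact_mod_cast hk
    nlinarith
  · rw [amon_smul e hk.le]
    by_cases h0 : amon e (tv v : Fin n → ℤ) < 0
    · exact Or.inl h0
    · right
      have h1 : (0 : ℝ) < k := by exact_mod_cast hk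
      push Not at h0
      positivity

end Pool.Agent.N148.LS
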