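import Mathlib
import Pool.Agent.N148.LS.Stm

/-!
# Independence of the local equation: statement
-/

set_option autoImplicit false

namespace Pool.Agent.N148.LS

open Pool.Agent.H436R3.Fol hiding ex
open Pool.Agent.H436R3.KT Pool.Agent.W497.Mld MvPolynomial
open Pool.Agent.TH165.ACC

/-- (IND) the orders of two local equations of `K_X + B` at a closed point `Q` of a toric variety
agree for all divisors over `Q` -/
def S_IND : Prop := ∀ (n : ℕ) (K : Type) [Field K] [Algebra ℂ K]
  [Algebra (MvPolynomial (Fin n) ℂ) K] [IsFractionRing (MvPolynomial (Fin n) ℂ) K]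
  [IsScalarTower ℂ (MvPolynomial (Fin n) ℂ) K] (g : ToricGerm n K) (B : EffDiv g.X)
  (Q : Pt g.X) (e₁ e₂ : LocEq B Q) (v : DVal K), IsOverGerm Q v →
  ∑ k, e₁.ρ k * (v.ord (e₁.g k) : ℝ) = ∑ k, e₂.ρ k * (v.ord (e₂.g k) : ℝ)

end Pool.Agent.N148.LS
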