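import Mathlib
import Pool.Agent.N148.LS.Low
import Pool.Agent.N148.LS.Stm2

/-!
# Comparison of the minimal log discrepancies
-/

set_option autoImplicit false
set_option linter.unusedSectionVars false

namespace Pool.Agent.N148.LS

open Pool.Agent.H436R3.Fol hiding ex
open Pool.Agent.H436R3.KT Pool.Agent.W497.Mld MvPolynomial
open Pool.Agent.TH165.ACC

section

variable {K : Type} [Field K] [Algebra ℂ K] {X : AffVar K}

open Classical in
/-- The minimal log discrepancy of `(X, B)` at the closed point `P` as an extended real number: the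
infimum of the log discrepancies of the prime divisors over `X` with centre `P`, and `-∞` if one of
them is negative. -/
noncomputable def mldE {B : EffDiv X} {P : Pt X} (e : LocEq B P) : EReal :=
  if ∃ v a, IsOverGerm P v ∧ IsLogDisc e v a ∧ a < 0 then ⊥
  else sInf {x : EReal | ∃ v a, IsOverGerm P v ∧ IsLogDisc e v a ∧ x = ((a : ℝ) : EReal)}

theorem mldE_le {B : EffDiv X} {P : Pt X} (e : LocEq B P) {v : DVal K} {a : ℝ}
    (hv : IsOverGerm P v) (ha : IsLogDisc e v a) : mldE e ≤ ((a : ℝ) : EReal) := by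
  rw [mldE]
  split_ifs
  · exact bot_le
  · exact sInf_le ⟨v, a, hv, ha, rfl⟩

theorem mldE_bot {B : EffDiv X} {P : Pt X} (e : LocEq B P) {v : DVal K} {a : ℝ}
    (hv : IsOverGerm P v) (ha : IsLogDisc e v a) (h : a < 0) : mldE e = ⊥ := by
  rw [mldE, if_pos ⟨v, a, hv, ha, h⟩]

/-- comparison of two minimal log discrepancies -/
theorem mldE_le_mldE {B : EffDiv X} {P Q : Pt X} (e : LocEq B P) (e' : LocEq B Q)
    (h : ∀ v a, IsOverGerm Q v → IsLogDisc e' v a →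
      ∃ w b, IsOverGerm P w ∧ IsLogDisc e w b ∧ (0 ≤ b → b ≤ a) ∧ (b < 0 ∨ 0 ≤ a)) :
    mldE e ≤ mldE e' := by
  by_cases h1 : ∃ v a, IsOverGerm Q v ∧ IsLogDisc e' v a ∧ a < 0
  · obtain ⟨v, a, hv, ha, hneg⟩ := h1
    obtain ⟨w, b, hw, hb, -, h4⟩ := h v a hv ha
    rcases h4 with h4 | h4
    · rw [mldE_bot e hw hb h4]
      exact bot_le
    · exact absurd h4 (not_le.2 hneg)
  · rw [mldE, mldE, if_neg h1]
    refine le_sInf ?_
    rintro x ⟨v, a, hv, ha, rfl⟩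
    obtain ⟨w, b, hw, hb, h3, -⟩ := h v a hv ha
    change mldE e ≤ _
    by_cases h5 : 0 ≤ b
    · exact (mldE_le e hw hb).trans (by exact_mod_cast h3 h5)
    · rw [mldE_bot e hw hb (not_le.1 h5)]
      exact bot_le

end

variable {n : ℕ} {K : Type} [Field K] [Algebra ℂ K]
  [Algebra (MvPolynomial (Fin n) ℂ) K] [IsFractionRing (MvPolynomial (Fin n) ℂ) K]
  [IsScalarTower ℂ (MvPolynomial (Fin n) ℂ) K]

/-- **Lower semicontinuity at the fixed point.** -/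
theorem fin (hJAC : S_JAC) (hXI : S_XI) (hCOMB : S_COMB) (hSEP : S_SEP) (hAMON : S_AMON)
    (hNB1 : S_NB1) (hNB2 : S_NB2) (hNB3 : S_NB3) {g : ToricGerm n K} {B : EffDiv g.X}
    (e : LocEq B g.P) {s : ℕ} {p : Fin s → MvPolynomial (Fin n) ℂ} (hp : Good g B p) :
    ∃ f : g.X.R, g.P f ≠ 0 ∧ ∀ Q : Pt g.X, Q f ≠ 0 →
      ∃ e' : LocEq B Q, (∀ v : DVal K, ∑ k, e'.ρ k * (v.ord (e'.g k) : ℝ) =
        ∑ k, e.ρ k * (v.ord (e.g k) : ℝ)) ∧ mldE e ≤ mldE e' := by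
  obtain ⟨f1, hf1, h1⟩ := main_lower hJAC hXI hCOMB hSEP hAMON hNB1 hNB3 e hp
  obtain ⟨f2, hf2, h2⟩ := hNB2 n K g B e
  refine ⟨f1 * f2, by rw [map_mul]; exact mul_ne_zero hf1 hf2, ?_⟩
  intro Q hQ
  rw [map_mul] at hQ
  have h2' := h2 Q (right_ne_zero_of_mul hQ)
  let e' : LocEq B Q := { n := e.n, ρ := e.ρ, g := e.g, ne := e.ne, eq := h2' }
  refine ⟨e', fun v => rfl, ?_⟩
  refine mldE_le_mldE e e' ?_
  rintro v a hv ⟨N, hN, ha⟩
  obtain ⟨u', hu', h3⟩ := h1 Q (left_ne_zero_of_mul hQ) v hv N hN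
  obtain ⟨w, hw, b, hb, h4, h5⟩ := exists_over e v hu'
  have h6 : amon e u' ≤ a := by
    rw [ha]
    exact h3
  refine ⟨w, b, hw, hb, fun h0 => (h4 h0).trans h6, ?_⟩
  rcases h5 with h5 | h5
  · exact Or.inl h5
  · exact Or.inr (h5.trans h6)

/-- the minimal log discrepancy does not depend on the local equation -/
theorem mldE_eq (hIND : S_IND) {g : ToricGerm n K} {B : EffDiv g.X} {Q : Pt g.X}
    (e₁ e₂ : LocEq B Q) : mldE e₁ ≤ mldE e₂ := by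
  refine mldE_le_mldE e₁ e₂ ?_
  rintro v a hv ⟨N, hN, ha⟩
  refine ⟨v, a, hv, ⟨N, hN, ?_⟩, fun h => le_rfl, ?_⟩
  · rw [ha, hIND n K g B Q e₁ e₂ v hv]
  · exact lt_or_ge a 0

/-- **Lower semicontinuity at the fixed point.** -/
theorem fin2 (hJAC : S_JAC) (hXI : S_XI) (hCOMB : S_COMB) (hSEP : S_SEP) (hAMON : S_AMON)
    (hNB1 : S_NB1) (hNB2 : S_NB2) (hNB3 : S_NB3) (hIND : S_IND) {g : ToricGerm n K}
    {B : EffDiv g.X} (e : LocEq B g.P) {s : ℕ} {p : Fin s → MvPolynomial (Fin n) ℂ}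
    (hp : Good g B p) :
    ∃ f : g.X.R, g.P f ≠ 0 ∧ ∀ Q : Pt g.X, Q f ≠ 0 →
      Nonempty (LocEq B Q) ∧ ∀ e' : LocEq B Q, mldE e ≤ mldE e' := by
  obtain ⟨f, hf, h⟩ := fin hJAC hXI hCOMB hSEP hAMON hNB1 hNB2 hNB3 e hp
  refine ⟨f, hf, fun Q hQ => ?_⟩
  obtain ⟨e', -, h1⟩ := h Q hQ
  exact ⟨⟨e'⟩, fun e'' => h1.trans (mldE_eq hIND e' e'')⟩

end Pool.Agent.N148.LS
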