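import Mathlib
import Pool.Agent.N148.LS.Stm2

/-!
# Independence of the local equation
-/

set_option autoImplicit false
set_option linter.unusedSectionVars false

namespace Pool.Agent.N148.LS

open Pool.Agent.H436R3.Fol hiding ex
open Pool.Agent.H436R3.KT Pool.Agent.W497.Mld MvPolynomial
open Pool.Agent.TH165.ACC

section IND

variable {n : ℕ} {K : Type} [Field K] [Algebra ℂ K]
  [Algebra (MvPolynomial (Fin n) ℂ) K] [IsFractionRing (MvPolynomial (Fin n) ℂ) K]
  [IsScalarTower ℂ (MvPolynomial (Fin n) ℂ) K]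

/-- `u` lies in the face of the cone which belongs to the orbit of the closed point `Q` -/
def Fc {g : ToricGerm n K} (Q : Pt g.X) (u : Fin n → ℤ) : Prop :=
  g.InCone u ∧ ∀ m ∈ Cn g.E, ∀ f : g.X.R, (f : K) = ym K m → Q f ≠ 0 → pr m u = 0

theorem Fc_add {g : ToricGerm n K} {Q : Pt g.X} {u u' : Fin n → ℤ} (h : Fc Q u) (h' : Fc Q u') :
    Fc Q (u + u') := by
  refine ⟨fun m hm => ?_, fun m hm f hf hQ => ?_⟩
  · rw [pr_add_right]
    exact add_nonneg (h.1 m hm) (h'.1 m hm)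
  · rw [pr_add_right, h.2 m hm f hf hQ, h'.2 m hm f hf hQ, add_zero]

theorem Fc_zero {g : ToricGerm n K} {Q : Pt g.X} : Fc Q (0 : Fin n → ℤ) :=
  ⟨fun m _ => by rw [pr_zero_right], fun m _ _ _ _ => by rw [pr_zero_right]⟩

theorem Fc_smul {g : ToricGerm n K} {Q : Pt g.X} {u : Fin n → ℤ} (h : Fc Q u) {k : ℤ}
    (hk : 0 ≤ k) : Fc Q (k • u) := by
  refine ⟨fun m hm => ?_, fun m hm f hf hQ => ?_⟩
  · rw [pr_smul_right]
    exact mul_nonneg hk (h.1 m hm)
  · rw [pr_smul_right, h.2 m hm f hf hQ, mul_zero]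

/-- a function which does not vanish at `Q` has a monomial which does not vanish at `Q` -/
theorem exists_mono_ne {g : ToricGerm n K} {Q : Pt g.X} {f : g.X.R} (hf : Q f ≠ 0) :
    ∃ (M : Fin n →₀ ℕ) (h : MvPolynomial (Fin n) ℂ), (f : K) * ym K (ex M) = jo (Fin n) K h ∧
      ∃ s ∈ h.support, ex s - ex M ∈ Cn g.E ∧
        ∃ x : g.X.R, (x : K) = ym K (ex s - ex M) ∧ Q x ≠ 0 := by
  classical
  obtain ⟨M, h, h1, -, h3⟩ := g.rep f
  refine ⟨M, h, h1, ?_⟩
  by_contra hcon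
  push Not at hcon
  have hmem : ∀ s ∈ h.support, ym K (ex s - ex M) ∈ g.X.R := by
    intro s hs
    rw [g.hR]
    exact ym_mem_LA (h3 s hs)
  have hsum : f = ∑ s ∈ h.support.attach,
      (h.coeff s.1) • (⟨ym K (ex s.1 - ex M), hmem s.1 s.2⟩ : g.X.R) := by
    apply Subtype.ext
    have hc : ((∑ s ∈ h.support.attach,
        (h.coeff s.1) • (⟨ym K (ex s.1 - ex M), hmem s.1 s.2⟩ : g.X.R) : g.X.R) : K) =
        ∑ s ∈ h.support.attach, (h.coeff s.1) • ym K (ex s.1 - ex M) := by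
      rw [AddSubmonoidClass.coe_finsetSum]
      rfl
    rw [hc, Finset.sum_attach h.support (fun s => (h.coeff s) • ym K (ex s - ex M))]
    apply mul_right_cancel₀ (ym_ne (K := K) (ex M))
    rw [h1, jo_eq_sum, Finset.sum_mul]
    refine Finset.sum_congr rfl fun s _ => ?_
    rw [Algebra.smul_def, mul_assoc, ← ym_add, sub_add_cancel]
  apply hf
  rw [hsum, map_sum]
  refine Finset.sum_eq_zero fun s _ => ?_
  rw [map_smul, hcon s.1 s.2 (h3 s.1 s.2) ⟨ym K (ex s.1 - ex M), hmem s.1 s.2⟩ rfl, smul_zero]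

theorem coe_ne_of_pt {g : ToricGerm n K} {Q : Pt g.X} {f : g.X.R} (hf : Q f ≠ 0) :
    (f : K) ≠ 0 := by
  intro h0
  apply hf
  have : f = 0 := Subtype.ext h0
  rw [this, map_zero]

/-- functions which do not vanish at `Q` have order `0` for the weights in the face of `Q` -/
theorem mu_face {g : ToricGerm n K} {Q : Pt g.X} {u : Fin n → ℤ} (hu : Fc Q u) {f : g.X.R}
    (hf : Q f ≠ 0) : mu u (f : K) = 0 := by
  have hf0 := coe_ne_of_pt hf
  obtain ⟨M, h, h1, s, hs, hC, x, hx, hQx⟩ := exists_mono_ne hf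
  have hh : h ≠ 0 := by
    rintro rfl
    simp at hs
  have h2 := (mu_jo (K := K) u hh).2 s hs
  rw [← h1, mu_mul u hf0 (ym_ne _), mu_ym] at h2
  have h3 := hu.2 _ hC x hx hQx
  rw [pr_sub] at h3
  have h4 := mu_nonneg hu.1 f hf0
  omega

theorem ord_zero_over {g : ToricGerm n K} {Q : Pt g.X} {v : DVal K} (hv : IsOverGerm Q v)
    {f : g.X.R} (hf : Q f ≠ 0) : v.ord (f : K) = 0 := by
  have hf0 := coe_ne_of_pt hf
  obtain ⟨⟨S, -, hRS, hSv⟩, hcen⟩ := hv
  have h5 := v.ord_nonneg hf0 (hSv.1 _ (hRS f.2))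
  have h6 : ¬ v.Pos (f : K) := fun h7 => hf ((hcen f).1 h7)
  by_contra h7
  exact h6 (Or.inr (by omega))

theorem Fc_tv {g : ToricGerm n K} {Q : Pt g.X} {v : DVal K} (hv : IsOverGerm Q v) :
    Fc Q (tv v) := by
  refine ⟨inCone_of_over hv, fun m hm f hf hQ => ?_⟩
  have := ord_zero_over hv hQ
  rwa [hf, ord_ym] at this

theorem onAt_face {g : ToricGerm n K} {Q : Pt g.X} {v : DVal K} (hv : IsMonomial n v)
    {i : Fin g.N} (h : (tv v : Fin n → ℤ) = g.E i) (hF : Fc Q (g.E i)) : OnAt Q v := by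
  refine ⟨ToricGerm.local_E hv h, fun f hf => ?_⟩
  by_contra h0
  have hf0 := coe_ne_of_pt h0
  have h1 := mu_mon hv hf0
  rw [h, mu_face hF h0] at h1
  rcases hf with hf | hf
  · exact hf0 hf
  · omega

/-- near `Q`, the prime `p` is a factor of a monomial times a unit -/
def Ht {g : ToricGerm n K} (Q : Pt g.X) (p : MvPolynomial (Fin n) ℂ) : Prop :=
  ∃ (s : g.X.R) (M : Fin n →₀ ℕ) (r : MvPolynomial (Fin n) ℂ), Q s ≠ 0 ∧
    (s : K) * ym K (ex M) = jo (Fin n) K (p * r)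

theorem Ht_X {g : ToricGerm n K} {Q : Pt g.X} {p : MvPolynomial (Fin n) ℂ} (hp : Prime p)
    {i : Fin n} (hi : (valP K p hp).ord (cv K i) ≠ 0) : Ht Q p := by
  have h1 : p ∣ X i := by
    by_contra h3
    exact hi (valP_other (K := K) hp (X_ne_zero i) h3)
  obtain ⟨r, hr⟩ := h1
  refine ⟨1, Finsupp.single i 1, r, by rw [map_one]; exact one_ne_zero, ?_⟩
  rw [← hr, ym_ex]
  simp [X]

theorem Ht_of {g : ToricGerm n K} {Q : Pt g.X} {p : MvPolynomial (Fin n) ℂ} (hp : Prime p)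
    (h : ¬ OnAt Q (valP K p hp)) : Ht Q p := by
  by_cases h0 : ∀ i : Fin n, (valP K p hp).ord (cv K i) = 0
  · have hL := g.local_prime hp h0
    have h2 : ∃ f : g.X.R, (valP K p hp).Pos (f : K) ∧ Q f ≠ 0 := by
      by_contra h3
      push Not at h3
      exact h ⟨hL, h3⟩
    obtain ⟨f, hf, hPf⟩ := h2
    obtain ⟨M, q, e1, -, -⟩ := g.rep f
    have hf0 : (f : K) ≠ 0 := coe_ne_of_pt hPf
    have hq : q ≠ 0 := by
      rintro rfl
      rw [map_zero] at e1
      exact mul_ne_zero hf0 (ym_ne _) e1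
    have hpq : p ∣ q := by
      by_contra h3
      have h4 := valP_other (K := K) hp hq h3
      have h7 : (tv (valP K p hp) : Fin n → ℤ) = 0 := funext h0
      rw [← e1, (valP K p hp).map_mul _ _ hf0 (ym_ne _), ord_ym, h7, pr] at h4
      simp only [Pi.zero_apply, mul_zero, Finset.sum_const_zero, add_zero] at h4
      rcases hf with hf | hf
      · exact hf0 hf
      · omega
    obtain ⟨r, rfl⟩ := hpq
    exact ⟨f, M, r, hPf, e1⟩
  · push Not at h0
    obtain ⟨i, hi⟩ := h0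
    exact Ht_X hp hi

theorem Ht_mu {g : ToricGerm n K} {Q : Pt g.X} {p : MvPolynomial (Fin n) ℂ} (h : Ht Q p) :
    ∃ (M : Fin n →₀ ℕ) (r : MvPolynomial (Fin n) ℂ), p ≠ 0 ∧ r ≠ 0 ∧
      (∀ u : Fin n → ℤ, Fc Q u →
        mu u (jo (Fin n) K p) + mu u (jo (Fin n) K r) = pr (ex M) u) ∧
      ∀ v, IsOverGerm Q v →
        v.ord (jo (Fin n) K p) + v.ord (jo (Fin n) K r) = pr (ex M) (tv v) := by
  obtain ⟨s, M, r, hs, e⟩ := h
  have hs0 := coe_ne_of_pt hs
  have hpr : p * r ≠ 0 := by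
    intro h0
    rw [h0, map_zero] at e
    exact mul_ne_zero hs0 (ym_ne _) e
  have hp := left_ne_zero_of_mul hpr
  have hr := right_ne_zero_of_mul hpr
  refine ⟨M, r, hp, hr, fun u hu => ?_, fun v hv => ?_⟩
  · rw [← mu_mul u (jo_ne hp) (jo_ne hr), ← map_mul, ← e, mu_mul u hs0 (ym_ne _), mu_ym,
      mu_face hu hs, zero_add]
  · rw [← v.map_mul _ _ (jo_ne hp) (jo_ne hr), ← map_mul, ← e, v.map_mul _ _ hs0 (ym_ne _),
      ord_ym, ord_zero_over hv hs, zero_add]

theorem Ht_ord {g : ToricGerm n K} {Q : Pt g.X} {p : MvPolynomial (Fin n) ℂ} (h : Ht Q p)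
    {v : DVal K} (hv : IsOverGerm Q v) :
    v.ord (jo (Fin n) K p) = mu (tv v : Fin n → ℤ) (jo (Fin n) K p) := by
  obtain ⟨M, r, hp, hr, h1, h2⟩ := Ht_mu h
  have h3 := h1 _ (Fc_tv hv)
  have h4 := h2 v hv
  have h5 := mu_le_ord v hp
  have h6 := mu_le_ord v hr
  omega

theorem Ht_add {g : ToricGerm n K} {Q : Pt g.X} {p : MvPolynomial (Fin n) ℂ} (h : Ht Q p)
    {u u' : Fin n → ℤ} (hu : Fc Q u) (hu' : Fc Q u') :
    mu (u + u') (jo (Fin n) K p) = mu u (jo (Fin n) K p) + mu u' (jo (Fin n) K p) := by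
  obtain ⟨M, r, hp, hr, h1, h2⟩ := Ht_mu h
  have h3 := h1 _ hu
  have h4 := h1 _ hu'
  have h5 := h1 _ (Fc_add hu hu')
  have h6 := mu_add (K := K) u u' hp
  have h7 := mu_add (K := K) u u' hr
  rw [pr_add_right] at h5
  omega

theorem Ht_sum {g : ToricGerm n K} {Q : Pt g.X} {p : MvPolynomial (Fin n) ℂ} (h : Ht Q p)
    {ι : Type} (S : Finset ι) (z : ι → ℤ) (A : ι → Fin n → ℤ) (hz : ∀ i ∈ S, 0 ≤ z i)
    (hA : ∀ i ∈ S, Fc Q (A i)) : Fc Q (∑ i ∈ S, z i • A i) ∧
    mu (∑ i ∈ S, z i • A i) (jo (Fin n) K p) = ∑ i ∈ S, z i * mu (A i) (jo (Fin n) K p) := by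
  classical
  have hp : p ≠ 0 := by
    obtain ⟨M, r, hp, -⟩ := Ht_mu h
    exact hp
  induction S using Finset.induction_on with
  | empty =>
    refine ⟨by rw [Finset.sum_empty]; exact Fc_zero, ?_⟩
    rw [Finset.sum_empty, Finset.sum_empty]
    have := mu_smul (le_refl (0 : ℤ)) (0 : Fin n → ℤ) (jo_ne (K := K) hp)
    rwa [smul_zero, zero_mul] at this
  | insert a S ha ih =>
    obtain ⟨ih1, ih2⟩ := ih (fun i hi => hz i (Finset.mem_insert_of_mem hi))
      (fun i hi => hA i (Finset.mem_insert_of_mem hi))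
    have hza := hz a (Finset.mem_insert_self _ _)
    have hAa := hA a (Finset.mem_insert_self _ _)
    rw [Finset.sum_insert ha, Finset.sum_insert ha]
    refine ⟨Fc_add (Fc_smul hAa hza) ih1, ?_⟩
    rw [Ht_add h (Fc_smul hAa hza) ih1, ih2, mu_smul hza _ (jo_ne hp)]

/-- Farkas: a multiple of a vector in the face of `Q` is a combination of edges in the face -/
theorem face_comb {g : ToricGerm n K} {Q : Pt g.X} {u : Fin n → ℤ} (hu : Fc Q u) :
    ∃ (d : ℕ) (a : Fin d → Fin g.N) (z : Fin d → ℤ) (D : ℤ), 0 < D ∧ (∀ i, 0 < z i) ∧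
      D • u = ∑ i, z i • g.E (a i) ∧ ∀ i, Fc Q (g.E (a i)) := by
  classical
  obtain ⟨d, a, w, hw, hsum, D, hD, hdual⟩ := exists_simplex hu.1
  choose q hq using hdual
  have key : ∀ m : Fin n → ℤ, (pr m u : ℝ) = ∑ j, w j * (pr m (g.E (a j)) : ℝ) := by
    intro m
    simp only [pr]
    push_cast
    simp only [Finset.mul_sum]
    rw [Finset.sum_comm]
    refine Finset.sum_congr rfl fun k _ => ?_
    rw [← hsum k, Finset.mul_sum]
    exact Finset.sum_congr rfl fun j _ => by ring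
  have hz : ∀ i, (pr (q i) u : ℝ) = D * w i := by
    intro i
    rw [key, Finset.sum_eq_single i]
    · rw [hq i i, if_pos rfl]; ring
    · intro j _ hj
      rw [hq i j, if_neg hj]; simp
    · intro h; exact absurd (Finset.mem_univ _) h
  have hD' : (0 : ℝ) < D := by exact_mod_cast hD
  have hz0 : ∀ i, 0 < pr (q i) u := by
    intro i
    have h1 : (0 : ℝ) < (pr (q i) u : ℝ) := by
      rw [hz]
      exact mul_pos hD' (hw i)
    exact_mod_cast h1
  have hDu : D • u = ∑ i, pr (q i) u • g.E (a i) := by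
    funext k
    have h1 : ((D • u) k : ℝ) = ((∑ i, pr (q i) u • g.E (a i)) k : ℤ) := by
      simp only [Pi.smul_apply, smul_eq_mul, Finset.sum_apply]
      push_cast
      rw [← hsum k, Finset.mul_sum]
      refine Finset.sum_congr rfl fun i _ => ?_
      rw [hz i]
      ring
    exact_mod_cast h1
  refine ⟨d, a, fun i => pr (q i) u, D, hD, hz0, hDu, fun i => ⟨ToricGerm.inCone_E _, ?_⟩⟩
  intro m hm f hf hQ
  have h1 := hu.2 m hm f hf hQ
  have h2 : (0 : ℤ) = ∑ i, pr (q i) u * pr m (g.E (a i)) := by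
    have h3 : pr m (D • u) = 0 := by rw [pr_smul_right, h1, mul_zero]
    rw [hDu, pr_sum_right] at h3
    rw [← h3]
    exact Finset.sum_congr rfl fun i _ => by rw [pr_smul_right]
  have h4 := (Finset.sum_eq_zero_iff_of_nonneg
    (fun i _ => mul_nonneg (hz0 i).le (hm (a i)))).1 h2.symm i (Finset.mem_univ i)
  rcases mul_eq_zero.1 h4 with h5 | h5
  · exact absurd h5 (hz0 i).ne'
  · exact h5

/-- A real linear combination of principal divisors which vanishes near the closed point `Q`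
has order `0` at all divisors over `Q`. -/
theorem comb_zero (g : ToricGerm n K) (Q : Pt g.X) {r : ℕ} (ρ : Fin r → ℝ) (f : Fin r → K)
    (hf : ∀ k, f k ≠ 0) (h0 : ∀ w, OnAt Q w → ∑ k, ρ k * (w.ord (f k) : ℝ) = 0)
    {v : DVal K} (hv : IsOverGerm Q v) : ∑ k, ρ k * (v.ord (f k) : ℝ) = 0 := by
  classical
  obtain ⟨F, c, hF, hne, hL⟩ := fact (n := n) ρ f hf
  have hHt : ∀ p ∈ F, c p ≠ 0 → Ht Q p := by
    intro p hp hc
    by_cases h1 : ∀ i : Fin n, (valP K p (hF p hp)).ord (cv K i) = 0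
    · apply Ht_of (hF p hp)
      intro hon
      have h2 := h0 _ hon
      rw [hL, Finset.sum_eq_single p] at h2
      · rw [valP_self] at h2
        apply hc
        simpa using h2
      · intro q hq hqp
        rw [valP_other (hF p hp) (hF q hq).ne_zero]
        · simp
        · intro hd
          exact hqp (hne p hp q hq hd).symm
      · intro h; exact absurd hp h
    · push Not at h1
      obtain ⟨i, hi⟩ := h1
      exact Ht_X (hF p hp) hi
  obtain ⟨d, a, z, D, hD, hz, hDu, hFc⟩ := face_comb (Fc_tv hv)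
  have hE : ∀ i, ∑ p ∈ F, c p * (mu (g.E (a i)) (jo (Fin n) K p) : ℝ) = 0 := by
    intro i
    obtain ⟨w, hw, htv⟩ := exists_mon (K := K) (g.prim (a i))
    have h1 := h0 w (onAt_face hw htv (hFc i))
    rw [hL] at h1
    rw [← h1]
    refine Finset.sum_congr rfl fun p hp => ?_
    rw [mu_mon hw (jo_ne (hF p hp).ne_zero), htv]
  have hterm : ∀ p ∈ F, (D : ℝ) * (c p * (v.ord (jo (Fin n) K p) : ℝ)) =
      ∑ i, (z i : ℝ) * (c p * (mu (g.E (a i)) (jo (Fin n) K p) : ℝ)) := by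
    intro p hp
    by_cases hc : c p = 0
    · rw [hc]; simp
    have hH := hHt p hp hc
    have h1 := (Ht_sum hH Finset.univ z (fun i => g.E (a i)) (fun i _ => (hz i).le)
      (fun i _ => hFc i)).2
    rw [← hDu, mu_smul hD.le _ (jo_ne (hF p hp).ne_zero), ← Ht_ord hH hv] at h1
    have h2 : (D : ℝ) * (v.ord (jo (Fin n) K p) : ℝ) =
        ∑ i, (z i : ℝ) * (mu (g.E (a i)) (jo (Fin n) K p) : ℝ) := by exact_mod_cast h1
    calc (D : ℝ) * (c p * (v.ord (jo (Fin n) K p) : ℝ))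
        = c p * ((D : ℝ) * (v.ord (jo (Fin n) K p) : ℝ)) := by ring
      _ = _ := by
        rw [h2, Finset.mul_sum]
        exact Finset.sum_congr rfl fun i _ => by ring
  have hfin : (D : ℝ) * ∑ k, ρ k * (v.ord (f k) : ℝ) = 0 := by
    rw [hL, Finset.mul_sum, Finset.sum_congr rfl hterm, Finset.sum_comm]
    refine Finset.sum_eq_zero fun i _ => ?_
    rw [← Finset.mul_sum, hE i, mul_zero]
  have hD' : (D : ℝ) ≠ 0 := by exact_mod_cast hD.ne'
  exact (mul_eq_zero.1 hfin).resolve_left hD'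

end IND

/-- The orders of two local equations of `K_X + B` at a closed point of a toric variety agree for
all divisors over the point. -/
theorem ind : S_IND := by
  intro n K _ _ _ _ _ g B Q e₁ e₂ v hv
  have h0 : ∀ w, OnAt Q w → ∑ k, e₁.ρ k * (w.ord (e₁.g k) : ℝ) =
      ∑ k, e₂.ρ k * (w.ord (e₂.g k) : ℝ) := by
    intro w hw
    obtain ⟨a, ha, h1⟩ := e₁.eq w hw
    obtain ⟨b, hb, h2⟩ := e₂.eq w hw
    have hab : a = b := IsLeast.unique ha hb
    rw [← h1, ← h2, hab]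
  have h1 := comb_zero g Q (Fin.append e₁.ρ (fun k => -e₂.ρ k)) (Fin.append e₁.g e₂.g)
    (fun k => by
      refine Fin.addCases (fun i => ?_) (fun i => ?_) k
      · rw [Fin.append_left]; exact e₁.ne i
      · rw [Fin.append_right]; exact e₂.ne i)
    (fun w hw => by
      rw [Fin.sum_univ_add]
      simp only [Fin.append_left, Fin.append_right, neg_mul, Finset.sum_neg_distrib]
      rw [h0 w hw]
      ring) hv
  rw [Fin.sum_univ_add] at h1
  simp only [Fin.append_left, Fin.append_right, neg_mul, Finset.sum_neg_distrib] at h1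
  linarith

end Pool.Agent.N148.LS
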