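import Mathlib
import Pool.Agent.N148.LS.Stm

/-!
# The Jacobian inequality

For polynomials whose initial forms have linearly independent logarithmic gradients at a point of
the torus on the centre of a divisorial valuation.
-/

set_option autoImplicit false
set_option linter.unusedSectionVars false

namespace Pool.Agent.N148.LS

open Pool.Agent.H436R3.Fol hiding ex
open Pool.Agent.H436R3.KT Pool.Agent.W497.Mld MvPolynomial
open Pool.Agent.TH165.ACC

theorem jac : S_JAC := by
  intro n K _ _ _ _ _ d F e hF v N hN π hπ h1 J _ _ p ξ hp0 hξ hev hli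
  classical
  set u : Fin n → ℤ := tv v with hu
  set m : J → ℤ := fun j => mu (tv v : Fin n → ℤ) (jo (Fin n) K (p j)) with hm
  have hmin : ∀ j, (∃ t ∈ (p j).support, m j = pr (ex t) u) ∧
      ∀ t ∈ (p j).support, m j ≤ pr (ex t) u := fun j => mu_jo (K := K) (tv v : Fin n → ℤ) (hp0 j)
  let 𝔭 : Ideal (MvPolynomial (Fin n) ℂ) := (mvI v).comap (Phi hπ h1)
  have hlead : ∀ j, lead u (p j) = part u (m j) (p j) := fun j => lead_eq (hmin j).1 (hmin j).2
  have hev' : ∀ q ∈ 𝔭, eval ξ q = 0 := fun q hq => hev q hq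
  obtain ⟨σ, hσ, hdet⟩ := exists_minor (Matrix.of fun (j : J) (i : Fin n) =>
    ξ i * eval ξ (pderiv i (lead u (p j)))) hli
  let Mp : Matrix J J (MvPolynomial (Fin n) ℂ) :=
    Matrix.of fun a b => X (σ a) * pderiv (σ a) (lead u (p b))
  have hMp : Mp.det ∉ 𝔭 := by
    intro h2
    apply hdet
    rw [← hev' _ h2, RingHom.map_det]
    congr 1
    ext a b
    simp [Mp]
  let AO : Matrix J J v.O := Matrix.of fun a b =>
    ⟨tor K (σ a) (jo (Fin n) K (p b)) * π ^ (-m b), by
      rw [tor_jo]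
      exact (reg_mul_zpow hπ h1 fun t ht => (hmin b).2 t (support_euler _ _ ht)).1⟩
  have hAO : AO.det ∉ mvI v := by
    intro h2
    apply hMp
    have h3 : (Ideal.Quotient.mk (mvI v)).mapMatrix AO =
        (Ideal.Quotient.mk (mvI v)).mapMatrix ((Phi hπ h1).mapMatrix Mp) := by
      ext a b
      rw [RingHom.mapMatrix_apply, RingHom.mapMatrix_apply, RingHom.mapMatrix_apply,
        Matrix.map_apply, Matrix.map_apply, Matrix.map_apply, Ideal.Quotient.eq, mem_mvI]
      have h4 := (reg_mul_zpow hπ h1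
        fun t ht => (hmin b).2 t (support_euler (σ a) _ ht)).2
      rw [← hu, ← euler_part, ← hlead, ← tor_jo] at h4
      exact h4
    have h4 : Ideal.Quotient.mk (mvI v) AO.det = Ideal.Quotient.mk (mvI v) (Phi hπ h1 Mp.det) := by
      rw [RingHom.map_det, h3, RingHom.map_det, RingHom.map_det]
    rw [Ideal.Quotient.eq_zero_iff_mem.2 h2] at h4
    change Phi hπ h1 Mp.det ∈ mvI v
    exact Ideal.Quotient.eq_zero_iff_mem.1 h4.symm
  obtain ⟨hd0, hd⟩ := ord_eq_zero_of_notMem hAO
  have hdK : (AO.det : K) = (Matrix.of fun a b : J =>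
      tor K (σ a) (jo (Fin n) K (p b)) * π ^ (-m b)).det := by
    have := v.O.subtype.map_det AO
    change (AO.det : K) = _ at this
    rw [this]
    rfl
  rw [hdK] at hd0 hd
  let Cc : Type := ↑((Set.range σ)ᶜ)
  let ε : J ⊕ Cc ≃ Fin n :=
    (Equiv.sumCongr (Equiv.ofInjective σ hσ) (Equiv.refl _)).trans
      (Equiv.Set.sumCompl (Set.range σ))
  have hε1 : ∀ a : J, ε (Sum.inl a) = σ a := fun a => rfl
  have hε2 : ∀ i : Cc, ε (Sum.inr i) = i.1 := fun i => rfl
  let h : J ⊕ Cc → K := Sum.elim (fun j => jo (Fin n) K (p j)) fun i => cv K i.1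
  have hh : ∀ x, h x ≠ 0 := by
    rintro (x | x)
    · exact jo_ne (hp0 _)
    · exact cv_ne _
  let A1 : Matrix J J K := Matrix.of fun a b => tor K (σ a) (jo (Fin n) K (p b))
  let C1 : Matrix Cc J K := Matrix.of fun a b => tor K a.1 (jo (Fin n) K (p b))
  have hblock : (Matrix.of fun x y => tor K (ε x) (h y)) =
      Matrix.fromBlocks A1 0 C1 (Matrix.diagonal fun i : Cc => cv K i.1) := by
    ext x y
    rcases x with x | x <;> rcases y with y | y
    · rfl
    · change tor K (σ x) (cv K y.1) = 0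
      rw [tor_cv, if_neg]
      intro h2
      exact y.2 ⟨x, h2⟩
    · rfl
    · change tor K x.1 (cv K y.1) = Matrix.diagonal (fun i : Cc => cv K i.1) x y
      rw [tor_cv, Matrix.diagonal_apply]
      by_cases h2 : x = y
      · subst h2; simp
      · rw [if_neg (fun h3 => h2 (Subtype.ext h3)), if_neg h2]
  have hA1 : A1.det = (∏ b : J, π ^ m b) * (Matrix.of fun a b : J =>
      tor K (σ a) (jo (Fin n) K (p b)) * π ^ (-m b)).det := by
    rw [← Matrix.det_mul_row]
    congr 1
    ext a b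
    simp only [Matrix.of_apply, A1]
    rw [mul_comm, mul_assoc, ← zpow_add₀ hπ, neg_add_cancel, zpow_zero, mul_one]
  have hpi : (∏ b : J, π ^ m b) ≠ 0 := Finset.prod_ne_zero_iff.2 fun b _ => zpow_ne_zero _ hπ
  have hcv : (∏ i : Cc, cv K i.1) ≠ 0 := Finset.prod_ne_zero_iff.2 fun b _ => cv_ne _
  have hA1ne : A1.det ≠ 0 := by rw [hA1]; exact mul_ne_zero hpi hd0
  have hA1ord : v.ord A1.det = ∑ b : J, m b := by
    rw [hA1, v.map_mul _ _ hpi hd0, hd, add_zero, v.ord_prod _ _ fun b _ => zpow_ne_zero _ hπ]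
    exact Finset.sum_congr rfl fun b _ => by rw [v.ord_zpow hπ, h1, mul_one]
  have hdetall : (Matrix.of fun x y => tor K (ε x) (h y)).det = A1.det * ∏ i : Cc, cv K i.1 := by
    rw [hblock, Matrix.det_fromBlocks_zero₁₂, Matrix.det_diagonal]
  have key := can_ge v hN (e.trans ε.symm) (fun x => tor K (ε x))
    (fun i => by rw [hF]; simp) h hh
    (by rw [hdetall]; exact mul_ne_zero hA1ne hcv)
  rw [hdetall, v.map_mul _ _ hA1ne hcv, hA1ord, v.ord_prod _ _ fun i _ => cv_ne _,
    Fintype.sum_sum_type] at key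
  have h9 : ∑ j, D v (p j) = ∑ j : J, (v.ord (jo (Fin n) K (p j)) - m j) := rfl
  rw [h9, Finset.sum_sub_distrib]
  have h10 : (∑ x : J, v.ord (h (Sum.inl x))) = ∑ x : J, v.ord (jo (Fin n) K (p x)) := rfl
  have h11 : (∑ x : Cc, v.ord (h (Sum.inr x))) = ∑ x : Cc, v.ord (cv K x.1) := rfl
  rw [h10, h11] at key
  linarith

end Pool.Agent.N148.LS
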