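import Mathlib
import Pool.Agent.N148.LS.Stm

/-!
# Project LS (helper148): near the fixed point only the `p j` count (helper288)
-/

set_option autoImplicit false
set_option linter.unusedSectionVars false

namespace Pool.Agent.N148.LS

open Pool.Agent.H436R3.Fol hiding ex
open Pool.Agent.H436R3.KT Pool.Agent.W497.Mld MvPolynomial
open Pool.Agent.TH165.ACC

section nb1

variable {n : ℕ} {K : Type} [Field K] [Algebra ℂ K]
  [Algebra (MvPolynomial (Fin n) ℂ) K] [IsFractionRing (MvPolynomial (Fin n) ℂ) K]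
  [IsScalarTower ℂ (MvPolynomial (Fin n) ℂ) K]

theorem nb1_unit (u : Fin n → ℤ) {q : MvPolynomial (Fin n) ℂ} (hq : IsUnit q) :
    mu u (jo (Fin n) K q) = 0 := by
  have h1 := isUnit_iff_totalDegree_of_isReduced.1 hq
  have h2 := totalDegree_eq_zero_iff_eq_C.1 h1.2
  obtain ⟨s, hs, h3⟩ := (mu_jo (K := K) u hq.ne_zero).1
  rw [h3]
  rw [h2] at hs
  have h4 : s = 0 := by
    by_contra h5
    rw [mem_support_iff, coeff_C, if_neg (fun h => h5 h.symm)] at hs
    exact hs rfl
  rw [h4]
  simp [pr, ex]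

theorem nb1_muassoc (u : Fin n → ℤ) {p q : MvPolynomial (Fin n) ℂ} (hp : p ≠ 0)
    (h : Associated p q) : mu u (jo (Fin n) K p) = mu u (jo (Fin n) K q) := by
  obtain ⟨c, rfl⟩ := h
  rw [map_mul, mu_mul u (jo_ne hp) (jo_ne c.isUnit.ne_zero), nb1_unit u c.isUnit, add_zero]

theorem nb1_Dassoc (v : DVal K) {p q : MvPolynomial (Fin n) ℂ} (hp : p ≠ 0)
    (h : Associated p q) : D v p = D v q := by
  rw [D, D, ord_assoc v hp h, nb1_muassoc _ hp h]

theorem nb1_valP {p q : MvPolynomial (Fin n) ℂ} (hp : Prime p) (hq : Prime q)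
    (h : Associated p q) {f : K} (hf : f ≠ 0) : (valP K p hp).ord f = (valP K q hq).ord f := by
  have key : ∀ a : MvPolynomial (Fin n) ℂ, a ≠ 0 →
      (valP K p hp).ord (jo (Fin n) K a) = (valP K q hq).ord (jo (Fin n) K a) := by
    intro a ha
    have h1 : (valP K p hp).ord (jo (Fin n) K a) = (multiplicity p a : ℤ) := valP_ord hp ha
    have h2 : (valP K q hq).ord (jo (Fin n) K a) = (multiplicity q a : ℤ) := valP_ord hq ha
    rw [h1, h2, multiplicity_eq_of_associated_left h]
  obtain ⟨a, b, hb, rfl⟩ := exists_frac (MvPolynomial (Fin n) ℂ) f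
  have ha : a ≠ 0 := by rintro rfl; simp at hf
  rw [← jo_apply, ← jo_apply, DVal.ord_div _ (jo_ne ha) (jo_ne hb),
    DVal.ord_div _ (jo_ne ha) (jo_ne hb), key a ha, key b hb]

theorem nb1_mult {X : AffVar K} (B : EffDiv X) {v v' : DVal K}
    (h : ∀ f : K, f ≠ 0 → v.ord f = v'.ord f) : B.mult v = B.mult v' := by
  unfold EffDiv.mult
  refine Finset.sum_congr rfl fun i _ => ?_
  congr 1
  apply propext
  constructor
  · intro h1 f hf
    rw [← h f hf, h1 f hf]
  · intro h1 f hf
    rw [h f hf, h1 f hf]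

theorem nb1_D0 (v : DVal K) {p : MvPolynomial (Fin n) ℂ} (hp : p ≠ 0) : 0 ≤ D v p := by
  have := mu_le_ord v hp
  unfold D
  omega

end nb1

theorem nb1 : S_NB1 := by
  classical
  intro n K _ _ _ _ _ g B e s p hp
  obtain ⟨F, c, hFp, hFd, hc⟩ := fact (n := n) e.ρ e.g e.ne
  -- functions which vanish on the components which do not contain the fixed point
  have hex : ∀ r : MvPolynomial (Fin n) ℂ, ∃ f : g.X.R, g.P f ≠ 0 ∧ ∀ hr : Prime r,
      (∀ i : Fin n, (valP K r hr).ord (cv K i) = 0) → ¬ Thr g r → (valP K r hr).Pos (f : K) := by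
    intro r
    by_cases h : ∃ hr : Prime r, (∀ i : Fin n, (valP K r hr).ord (cv K i) = 0) ∧ ¬ Thr g r
    · obtain ⟨hr, h0, h⟩ := h
      have hL := g.local_prime hr h0
      have h1 : ¬ OnAt g.P (valP K r hr) := fun h1 => h ⟨hr, h0, h1⟩
      have h2 : ∃ f : g.X.R, (valP K r hr).Pos (f : K) ∧ g.P f ≠ 0 := by
        by_contra h3
        push Not at h3
        exact h1 ⟨hL, h3⟩
      obtain ⟨f, hf, hPf⟩ := h2
      exact ⟨f, hPf, fun _ _ _ => hf⟩
    · refine ⟨1, by rw [map_one]; exact one_ne_zero, fun hr h0 h1 => ?_⟩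
      exact absurd ⟨hr, h0, h1⟩ h
  choose fr hfr1 hfr2 using hex
  refine ⟨∏ r ∈ F, fr r, by
    rw [map_prod]
    exact Finset.prod_ne_zero_iff.2 fun r _ => hfr1 r, ?_⟩
  intro Q hQ v hov
  have hQr : ∀ r ∈ F, Q (fr r) ≠ 0 := by
    rw [map_prod] at hQ
    exact Finset.prod_ne_zero_iff.1 hQ
  have hcone : g.InCone (tv v) := inCone_of_over hov
  -- the components which do not contain the fixed point
  have hno : ∀ r ∈ F, ¬ Thr g r → D v r = 0 := by
    intro r hrF hthr
    have hr := hFp r hrF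
    by_cases h0 : ∀ i : Fin n, (valP K r hr).ord (cv K i) = 0
    · have hf := hfr2 r hr h0 hthr
      have hPf := hfr1 r
      have hQf := hQr r hrF
      obtain ⟨M, q, e1, e2, -⟩ := g.rep (fr r)
      obtain ⟨hf0, hmu0⟩ := mu_zero_of_ne hcone hPf
      have hq : q ≠ 0 := by
        rintro rfl
        rw [coeff_zero] at e2
        exact hPf e2.symm
      have hpq : r ∣ q := by
        by_contra h3
        have h4 := valP_other (K := K) hr hq h3
        have h7 : (tv (valP K r hr) : Fin n → ℤ) = 0 := funext h0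
        rw [← e1, (valP K r hr).map_mul _ _ hf0 (ym_ne _), ord_ym, h7, pr] at h4
        simp only [Pi.zero_apply, mul_zero, Finset.sum_const_zero, add_zero] at h4
        rcases hf with hf | hf
        · exact hf0 hf
        · omega
      obtain ⟨q', rfl⟩ := hpq
      have hq' : q' ≠ 0 := right_ne_zero_of_mul hq
      have h4 : v.ord (fr r : K) = 0 := by
        obtain ⟨⟨S, -, hRS, hSv⟩, hcen⟩ := hov
        have h5 := v.ord_nonneg hf0 (hSv.1 _ (hRS (fr r).2))
        have h6 : ¬ v.Pos (fr r : K) := fun h7 => hQf ((hcen (fr r)).1 h7)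
        by_contra h7
        exact h6 (Or.inr (by omega))
      have h5 : v.ord (jo (Fin n) K (r * q')) = pr (ex M) (tv v) := by
        rw [← e1, v.map_mul _ _ hf0 (ym_ne _), h4, zero_add, ord_ym]
      have h5' : mu (tv v : Fin n → ℤ) (jo (Fin n) K (r * q')) = pr (ex M) (tv v) := by
        rw [← e1, mu_mul _ hf0 (ym_ne _), hmu0, zero_add, mu_ym]
      rw [map_mul, v.map_mul _ _ (jo_ne hr.ne_zero) (jo_ne hq')] at h5
      rw [map_mul, mu_mul _ (jo_ne hr.ne_zero) (jo_ne hq')] at h5'
      have h6 := mu_le_ord v hr.ne_zero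
      have h7 := mu_le_ord v hq'
      unfold D
      omega
    · push Not at h0
      obtain ⟨i, hi⟩ := h0
      have h1 : r ∣ X i := by
        by_contra h3
        exact hi (valP_other (K := K) hr (X_ne_zero i) h3)
      have h2 : Associated r (X i) := hr.associated_of_dvd X_prime h1
      rw [nb1_Dassoc v hr.ne_zero h2]
      have h3 : v.ord (jo (Fin n) K (X i)) = v.ord (cv K i) := rfl
      have h4 : mu (tv v : Fin n → ℤ) (jo (Fin n) K (X i)) = v.ord (cv K i) := mu_cv _ i
      unfold D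
      rw [h3, h4, sub_self]
  -- the components through the fixed point
  have hThr : ∀ r (hr : r ∈ F), Thr g r → c r = B.mult (valP K r (hFp r hr)) ∧
      (c r ≠ 0 → ∃ j, r ∣ p j) := by
    rintro r hr ⟨hpp, hcv, hon⟩
    obtain ⟨a, ha, h3⟩ := e.eq _ hon
    have hL := g.local_prime hpp hcv
    have h4 : a = 0 := ha.unique (can_unit g.e g.hT (by rw [← g.hR]; exact hL) hcv)
    have h5 : ∑ q ∈ F, c q * ((valP K r hpp).ord (jo (Fin n) K q) : ℝ) = c r := by
      rw [Finset.sum_eq_single r]
      · rw [valP_self]; push_cast; ring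
      · intro q hq hqr
        rw [valP_other hpp (hFp q hq).ne_zero fun h => hqr (hFd r hr q hq h).symm]
        push_cast; ring
      · intro h; exact absurd hr h
    rw [hc, h5, h4, Int.cast_zero, zero_add] at h3
    rw [← h3]
    refine ⟨rfl, fun h6 => ?_⟩
    obtain ⟨j, hj⟩ := hp.cover _ hon hcv h6
    exact ⟨j, (valP_pos_iff hpp (p j)).1 hj⟩
  -- the terms of the right hand side
  obtain ⟨T, hT⟩ : ∃ T : Fin s → ℝ, ∀ j, T j = B.mult (valP K (p j) (hp.prime j)) *
      (D v (p j) : ℝ) := ⟨_, fun _ => rfl⟩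
  have hT0 : ∀ j, 0 ≤ T j := by
    intro j
    rw [hT]
    refine mul_nonneg (mult_nonneg B _) ?_
    exact_mod_cast nb1_D0 v (hp.prime j).ne_zero
  have h1 : ∀ r ∈ F, c r * (D v r : ℝ) ≤ ∑ j, if r ∣ p j then T j else 0 := by
    intro r hr
    have hpos : 0 ≤ ∑ j, if r ∣ p j then T j else 0 := Finset.sum_nonneg fun j _ => by
      split_ifs
      · exact hT0 j
      · exact le_rfl
    by_cases h3 : Thr g r
    · obtain ⟨h4, h5⟩ := hThr r hr h3
      by_cases h6 : c r = 0
      · rw [h6, zero_mul]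
        exact hpos
      · obtain ⟨j, hj⟩ := h5 h6
        have h7 : Associated r (p j) := (hFp r hr).associated_of_dvd (hp.prime j) hj
        have h8 : c r * (D v r : ℝ) = T j := by
          rw [hT, h4, nb1_Dassoc v (hFp r hr).ne_zero h7,
            nb1_mult B fun f hf => nb1_valP (hFp r hr) (hp.prime j) h7 hf]
        rw [h8]
        have h9 : (if r ∣ p j then T j else 0) ≤ ∑ j, if r ∣ p j then T j else 0 :=
          Finset.single_le_sum (f := fun j => if r ∣ p j then T j else 0) (fun i _ => by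
            split_ifs
            · exact hT0 i
            · exact le_rfl) (Finset.mem_univ j)
        rwa [if_pos hj] at h9
    · rw [hno r hr h3, Int.cast_zero, mul_zero]
      exact hpos
  have h2 : ∑ r ∈ F, c r * (D v r : ℝ) ≤ ∑ j, T j := by
    calc ∑ r ∈ F, c r * (D v r : ℝ) ≤ ∑ r ∈ F, ∑ j, (if r ∣ p j then T j else 0) :=
          Finset.sum_le_sum h1
      _ = ∑ j, ∑ r ∈ F, (if r ∣ p j then T j else 0) := Finset.sum_comm
      _ ≤ ∑ j, T j := by
          refine Finset.sum_le_sum fun j _ => ?_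
          by_cases h3 : ∃ r ∈ F, r ∣ p j
          · obtain ⟨r, hr, hrj⟩ := h3
            rw [Finset.sum_eq_single r]
            · rw [if_pos hrj]
            · intro r' hr' hne
              rw [if_neg]
              intro h4
              apply hne
              have h5 : Associated r (p j) := (hFp r hr).associated_of_dvd (hp.prime j) hrj
              exact hFd r' hr' r hr (h4.trans h5.symm.dvd)
            · intro h; exact absurd hr h
          · push Not at h3
            rw [Finset.sum_eq_zero fun r hr => by rw [if_neg (h3 r hr)]]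
            exact hT0 j
  have h3 : amon e (tv v) = -∑ r ∈ F, c r * (mu (tv v : Fin n → ℤ) (jo (Fin n) K r) : ℝ) := by
    rw [amon, fact_mu e.ρ e.g e.ne (fun r hr => (hFp r hr).ne_zero) hc]
  have h4 : ∑ r ∈ F, c r * (D v r : ℝ) = ∑ r ∈ F, c r * (v.ord (jo (Fin n) K r) : ℝ) -
      ∑ r ∈ F, c r * (mu (tv v : Fin n → ℤ) (jo (Fin n) K r) : ℝ) := by
    rw [← Finset.sum_sub_distrib]
    refine Finset.sum_congr rfl fun r _ => ?_
    unfold D
    push_cast
    ring
  rw [h3, hc, ← Finset.sum_congr rfl fun j _ => hT j]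
  rw [h4] at h2
  linarith

end Pool.Agent.N148.LS
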