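import Mathlib
import Pool.Agent.N148.LS.Stm

/-!
# The local equation at nearby points
-/

set_option autoImplicit false
set_option linter.unusedSectionVars false

namespace Pool.Agent.N148.LS

open Pool.Agent.H436R3.Fol hiding ex
open Pool.Agent.H436R3.KT Pool.Agent.W497.Mld MvPolynomial
open Pool.Agent.TH165.ACC

namespace NB2aux

section key

variable {K : Type} [Field K] [Algebra ℂ K]

theorem w_pow (w : K → ℤ) (hw : ∀ a b, a ≠ 0 → b ≠ 0 → w (a * b) = w a + w b) {x : K}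
    (hx : x ≠ 0) (k : ℕ) : w (x ^ k) = k * w x := by
  induction k with
  | zero =>
    have h := hw 1 1 one_ne_zero one_ne_zero
    rw [mul_one] at h
    rw [pow_zero]
    push_cast
    omega
  | succ k ih =>
    rw [pow_succ, hw _ _ (pow_ne_zero _ hx) hx, ih]
    push_cast
    ring

/-- Comparison of a prime divisor with a second valuation. -/
theorem key {R : Subalgebra ℂ K} {v : DVal K} (hv : IsLocalRing' R v) (w : K → ℤ)
    (hw : ∀ a b, a ≠ 0 → b ≠ 0 → w (a * b) = w a + w b)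
    (hb : ∀ b ∈ R, b ≠ 0 → v.ord b = 0 → w b = 0)
    {x y : K} (hx0 : x ≠ 0) (hy0 : y ≠ 0) (hvy : 0 < v.ord y) (hwy : 0 < w y)
    (hvx : 0 < v.ord x) : 0 < w x := by
  obtain ⟨l, hl⟩ : ∃ l : ℕ, (l : ℤ) = v.ord y := ⟨(v.ord y).toNat, Int.toNat_of_nonneg hvy.le⟩
  obtain ⟨k, hk⟩ : ∃ k : ℕ, (k : ℤ) = v.ord x := ⟨(v.ord x).toNat, Int.toNat_of_nonneg hvx.le⟩
  have hX : x ^ l ≠ 0 := pow_ne_zero _ hx0
  have hY : y ^ k ≠ 0 := pow_ne_zero _ hy0
  have hz : v.ord (x ^ l / y ^ k) = 0 := by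
    rw [v.ord_div hX hY, w_pow v.ord v.map_mul hx0, w_pow v.ord v.map_mul hy0, ← hk, ← hl]
    ring
  obtain ⟨a, b, ha, hb', hb0, hvb, hab⟩ := hv.2 _ (Or.inr hz.ge)
  have hz0 : x ^ l / y ^ k ≠ 0 := div_ne_zero hX hY
  have ha0 : a ≠ 0 := by
    rw [← hab]
    exact mul_ne_zero hz0 hb0
  have hva : v.ord a = 0 := by
    rw [← hab, v.map_mul _ _ hz0 hb0, hz, hvb]
    rfl
  have e1 : x ^ l * b = a * y ^ k := by
    rw [← hab]
    field_simp
  have e2 : (l : ℤ) * w x + w b = w a + k * w y := by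
    rw [← w_pow w hw hx0, ← w_pow w hw hy0, ← hw _ _ hX hb0, e1, hw _ _ ha0 hY]
  rw [hb b hb' hb0 hvb, hb a ha ha0 hva] at e2
  have h1 : 0 < (k : ℤ) * w y := mul_pos (by omega) hwy
  have h2 : 0 < (l : ℤ) * w x := by linarith
  exact (pos_iff_pos_of_mul_pos h2).1 (by omega)

end key

variable {n : ℕ} {K : Type} [Field K] [Algebra ℂ K]
  [Algebra (MvPolynomial (Fin n) ℂ) K] [IsFractionRing (MvPolynomial (Fin n) ℂ) K]
  [IsScalarTower ℂ (MvPolynomial (Fin n) ℂ) K]

theorem ne_of_P {g : ToricGerm n K} {P : Pt g.X} {f : g.X.R} (h : P f ≠ 0) : (f : K) ≠ 0 := by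
  intro h0
  apply h
  have : f = 0 := Subtype.ext h0
  rw [this, map_zero]

theorem incone {g : ToricGerm n K} {v : DVal K} (hv : IsLocalRing' g.X.R v) :
    g.InCone (tv v) := by
  intro m hm
  have h1 : ym K m ∈ g.X.R := by
    rw [g.hR]
    exact ym_mem_LA hm
  have h2 := v.ord_nonneg (ym_ne _) (hv.1 _ h1)
  rwa [ord_ym] at h2

/-- a prime divisor on `X` on which a function with nonzero value at the fixed point vanishes meets
the torus -/
theorem tv_zero {g : ToricGerm n K} {v : DVal K} (hv : IsLocalRing' g.X.R v) {x : g.X.R}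
    (hx : g.P x ≠ 0) (hvx : 0 < v.ord (x : K)) : (tv v : Fin n → ℤ) = 0 := by
  by_contra hu
  have hin := incone hv
  obtain ⟨hx0, hmx⟩ := mu_zero_of_ne hin hx
  have hpos : 0 < pr (tv v) (tv v : Fin n → ℤ) := by
    obtain ⟨i, hi⟩ : ∃ i, (tv v : Fin n → ℤ) i ≠ 0 := by
      by_contra h
      push Not at h
      exact hu (funext h)
    rw [pr]
    refine Finset.sum_pos' (fun j _ => mul_self_nonneg _) ⟨i, Finset.mem_univ i, ?_⟩
    exact mul_self_pos.2 hi
  have h1 := key hv (mu (tv v : Fin n → ℤ)) (fun a b ha hb => mu_mul _ ha hb)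
    (fun b hb hb0 hvb => by
      have h2 := mu_nonneg hin ⟨b, hb⟩ hb0
      change 0 ≤ mu _ b at h2
      obtain ⟨M, p, h3, -, -⟩ := g.rep ⟨b, hb⟩
      change b * ym K (ex M) = _ at h3
      have hp : p ≠ 0 := by
        rintro rfl
        rw [map_zero] at h3
        exact mul_ne_zero hb0 (ym_ne _) h3
      have h4 := mu_le_ord v hp
      rw [← h3, mu_mul _ hb0 (ym_ne _), mu_ym, v.map_mul _ _ hb0 (ym_ne _), ord_ym] at h4
      omega) hx0 (ym_ne (K := K) (tv v : Fin n → ℤ)) (by rw [ord_ym]; exact hpos)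
    (by rw [mu_ym]; exact hpos) hvx
  omega

theorem pr_z (m : Fin n → ℤ) : pr m 0 = 0 := pr_zero_right m

/-- polynomials are regular along divisors which meet the torus -/
theorem ord_jo_nonneg {v : DVal K} (h0 : (tv v : Fin n → ℤ) = 0) {p : MvPolynomial (Fin n) ℂ}
    (hp : p ≠ 0) : 0 ≤ v.ord (jo (Fin n) K p) := by
  have h1 := mu_le_ord v hp
  obtain ⟨⟨s, -, h2⟩, -⟩ := mu_jo (K := K) (tv v : Fin n → ℤ) hp
  rw [h2, h0, pr_z] at h1
  exact h1

/-- the order of a multiple -/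
theorem ord_ge_of_dvd {v : DVal K} (h0 : (tv v : Fin n → ℤ) = 0) {r q : MvPolynomial (Fin n) ℂ}
    (hq : q ≠ 0) (h : r ∣ q) : v.ord (jo (Fin n) K r) ≤ v.ord (jo (Fin n) K q) := by
  obtain ⟨q', rfl⟩ := h
  have h1 := ord_jo_nonneg h0 (right_ne_zero_of_mul hq)
  rw [map_mul, v.map_mul _ _ (jo_ne (left_ne_zero_of_mul hq)) (jo_ne (right_ne_zero_of_mul hq))]
  omega

theorem main (g : ToricGerm n K) (B : EffDiv g.X) (e : LocEq B g.P) :
    ∃ f : g.X.R, g.P f ≠ 0 ∧ ∀ Q : Pt g.X, Q f ≠ 0 → ∀ v, OnAt Q v →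
    ∃ a : ℤ, IsCanOrd g.X.T v a ∧ (a : ℝ) + B.mult v = ∑ k, e.ρ k * (v.ord (e.g k) : ℝ) := by
  classical
  obtain ⟨F, c, hFp, hFd, hc⟩ := fact (n := n) e.ρ e.g e.ne
  have hfr : ∀ r : MvPolynomial (Fin n) ℂ, ∃ f : g.X.R, g.P f ≠ 0 ∧ ∀ hr : Prime r,
      (∀ i : Fin n, (valP K r hr).ord (cv K i) = 0) → ¬ Thr g r →
        (valP K r hr).Pos (f : K) := by
    intro r
    by_cases h : ∃ hr : Prime r, (∀ i : Fin n, (valP K r hr).ord (cv K i) = 0) ∧ ¬ Thr g r
    · obtain ⟨hr, h0, hT⟩ := h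
      have hL := g.local_prime hr h0
      have h1 : ¬ OnAt g.P (valP K r hr) := fun h1 => hT ⟨hr, h0, h1⟩
      have h2 : ∃ f : g.X.R, (valP K r hr).Pos (f : K) ∧ g.P f ≠ 0 := by
        by_contra h3
        push Not at h3
        exact h1 ⟨hL, h3⟩
      obtain ⟨f, hf1, hf2⟩ := h2
      exact ⟨f, hf2, fun _ _ _ => hf1⟩
    · refine ⟨1, by rw [map_one]; exact one_ne_zero, fun hr h0 hT => ?_⟩
      exact absurd ⟨hr, h0, hT⟩ h
  have hfi : ∀ i : Fin B.n, ∃ f : g.X.R, g.P f ≠ 0 ∧ (¬ OnAt g.P (B.D i) →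
      (B.D i).Pos (f : K)) := by
    intro i
    by_cases h : OnAt g.P (B.D i)
    · exact ⟨1, by rw [map_one]; exact one_ne_zero, fun h' => absurd h h'⟩
    · have h2 : ∃ f : g.X.R, (B.D i).Pos (f : K) ∧ g.P f ≠ 0 := by
        by_contra h3
        push Not at h3
        exact h ⟨B.on i, h3⟩
      obtain ⟨f, hf1, hf2⟩ := h2
      exact ⟨f, hf2, fun _ => hf1⟩
  choose fr hfr0 hfr1 using hfr
  choose fi hfi0 hfi1 using hfi
  refine ⟨(∏ r ∈ F, fr r) * ∏ i, fi i, ?_, ?_⟩
  · rw [map_mul, map_prod, map_prod]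
    exact mul_ne_zero (Finset.prod_ne_zero_iff.2 fun r _ => hfr0 r)
      (Finset.prod_ne_zero_iff.2 fun i _ => hfi0 i)
  intro Q hQ v hv
  rw [map_mul, map_prod, map_prod] at hQ
  have hQr : ∀ r ∈ F, Q (fr r) ≠ 0 := Finset.prod_ne_zero_iff.1 (left_ne_zero_of_mul hQ)
  have hQi : ∀ i, Q (fi i) ≠ 0 := fun i =>
    Finset.prod_ne_zero_iff.1 (right_ne_zero_of_mul hQ) i (Finset.mem_univ i)
  by_cases hP : OnAt g.P v
  · exact e.eq v hP
  obtain ⟨x, hxv, hx⟩ : ∃ x : g.X.R, v.Pos (x : K) ∧ g.P x ≠ 0 := by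
    by_contra h3
    push Not at h3
    exact hP ⟨hv.1, h3⟩
  have hx0 : (x : K) ≠ 0 := ne_of_P hx
  have hvx : 0 < v.ord (x : K) := hxv.resolve_left hx0
  have htv := tv_zero hv.1 hx hvx
  have hcv : ∀ i : Fin n, v.ord (cv K i) = 0 := fun i => congrFun htv i
  have hym : ∀ m : Fin n → ℤ, v.ord (ym K m) = 0 := fun m => by rw [ord_ym, htv, pr_z]
  -- the multiplicity of `B` is zero
  have hB : B.mult v = 0 := by
    rw [EffDiv.mult]
    refine Finset.sum_eq_zero fun i _ => if_neg fun hsame => ?_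
    have h1 : ¬ OnAt g.P (B.D i) := by
      intro h2
      refine hx (h2.2 x (Or.inr ?_))
      rw [← hsame _ hx0]
      exact hvx
    have h2 := hfi1 i h1
    have h3 : ((fi i : g.X.R) : K) ≠ 0 := ne_of_P (hfi0 i)
    have h4 := h2.resolve_left h3
    rw [← hsame _ h3] at h4
    exact hQi i (hv.2 _ (Or.inr h4))
  -- the primes have order zero
  have hord : ∀ r ∈ F, v.ord (jo (Fin n) K r) = 0 := by
    intro r hr
    have hrp := hFp r hr
    by_cases h0 : ∀ i : Fin n, (valP K r hrp).ord (cv K i) = 0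
    · have h1 := ord_jo_nonneg htv hrp.ne_zero
      by_contra h2
      have h3 : 0 < v.ord (jo (Fin n) K r) := by omega
      have htr : (tv (valP K r hrp) : Fin n → ℤ) = 0 := funext h0
      have hymr : ∀ m : Fin n → ℤ, (valP K r hrp).ord (ym K m) = 0 := fun m => by
        rw [ord_ym, htr, pr_z]
      by_cases hT : Thr g r
      · obtain ⟨hr', _, hon⟩ := hT
        have h4 := key hv.1 (valP K r hrp).ord (valP K r hrp).map_mul
          (fun b hb hb0 hvb => by
            obtain ⟨M, p, h5, -, -⟩ := g.rep ⟨b, hb⟩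
            change b * ym K (ex M) = _ at h5
            have hp : p ≠ 0 := by
              rintro rfl
              rw [map_zero] at h5
              exact mul_ne_zero hb0 (ym_ne _) h5
            have h6 : v.ord (jo (Fin n) K p) = 0 := by
              rw [← h5, v.map_mul _ _ hb0 (ym_ne _), hvb, hym, add_zero]
            have h7 : ¬ r ∣ p := by
              intro h8
              have := ord_ge_of_dvd htv hp h8
              omega
            have h8 := valP_other (K := K) hrp hp h7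
            rw [← h5, (valP K r hrp).map_mul _ _ hb0 (ym_ne _), hymr, add_zero] at h8
            exact h8) hx0 (jo_ne (K := K) hrp.ne_zero) h3
          (by rw [valP_self]; exact one_pos) hvx
        exact hx (hon.2 x (Or.inr h4))
      · have h4 := hfr1 r hrp h0 hT
        have h5 : ((fr r : g.X.R) : K) ≠ 0 := ne_of_P (hfr0 r)
        have h6 := h4.resolve_left h5
        obtain ⟨M, q, e1, e2, -⟩ := g.rep (fr r)
        have hq : q ≠ 0 := by
          rintro rfl
          rw [map_zero] at e1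
          exact mul_ne_zero h5 (ym_ne _) e1
        have hrq : r ∣ q := by
          by_contra h7
          have h8 := valP_other (K := K) hrp hq h7
          rw [← e1, (valP K r hrp).map_mul _ _ h5 (ym_ne _), hymr, add_zero] at h8
          omega
        have h7 := ord_ge_of_dvd htv hq hrq
        rw [← e1, v.map_mul _ _ h5 (ym_ne _), hym, add_zero] at h7
        exact hQr r hr (hv.2 _ (Or.inr (by omega)))
    · push Not at h0
      obtain ⟨k, hk⟩ := h0
      have h1 : r ∣ X k := by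
        by_contra h3
        exact hk (valP_other (K := K) hrp (X_ne_zero k) h3)
      have h2 : Associated r (X k) := hrp.associated_of_dvd X_prime h1
      rw [ord_assoc v hrp.ne_zero h2]
      exact hcv k
  refine ⟨0, can_unit g.e g.hT (C := Cn g.E) (by rw [← g.hR]; exact hv.1) hcv, ?_⟩
  rw [hc, hB, Finset.sum_eq_zero fun r hr => by rw [hord r hr]; push_cast; ring]
  push_cast
  ring

end NB2aux

/-- the local equation at the fixed point is a local equation at all nearby points -/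
theorem nb2 : S_NB2 := by
  intro n K _ _ _ _ _ g B e
  exact NB2aux.main g B e

end Pool.Agent.N148.LS
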