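import Mathlib
import Pool.Agent.N148.LS.Stm

/-!
# Parts of polynomials which do not vanish near the fixed point, up to a monomial
-/

set_option autoImplicit false
set_option linter.unusedSectionVars false

namespace Pool.Agent.N148.LS

open Pool.Agent.H436R3.Fol hiding ex
open Pool.Agent.H436R3.KT Pool.Agent.W497.Mld MvPolynomial
open Pool.Agent.TH165.ACC

section

variable {n : ℕ} {K : Type} [Field K] [Algebra ℂ K]
  [Algebra (MvPolynomial (Fin n) ℂ) K] [IsFractionRing (MvPolynomial (Fin n) ℂ) K]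
  [IsScalarTower ℂ (MvPolynomial (Fin n) ℂ) K]

/-- a part of `p` containing the monomial `t`, divided by this monomial -/
theorem nb3_fun (g : ToricGerm n K) (p : MvPolynomial (Fin n) ℂ) (t : Fin n →₀ ℕ)
    (ht : t ∈ p.support) (G : Finset (Fin n →₀ ℕ)) (htG : t ∈ G)
    (hG : ∀ t' ∈ G, ex t' - ex t ∈ Cn g.E) :
    ∃ f : g.X.R, g.P f ≠ 0 ∧
      jo (Fin n) K (∑ t' ∈ G, monomial t' (p.coeff t')) = (f : K) * ym K (ex t) := by
  classical
  have hmem : ∀ m : Fin n → ℤ, m ∈ Cn g.E → ym K m ∈ g.X.R := by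
    intro m hm
    rw [g.hR]
    exact ym_mem_LA hm
  let yR : (Fin n → ℤ) → g.X.R := fun m => if h : m ∈ Cn g.E then ⟨ym K m, hmem m h⟩ else 0
  have hyR : ∀ m ∈ Cn g.E, ((yR m : g.X.R) : K) = ym K m := by
    intro m hm
    simp only [yR, dif_pos hm]
  refine ⟨∑ t' ∈ G, p.coeff t' • yR (ex t' - ex t), ?_, ?_⟩
  · rw [map_sum, Finset.sum_eq_single t]
    · rw [map_smul]
      have h1 : yR (ex t - ex t) = 1 := by
        apply Subtype.ext
        rw [hyR _ (hG t htG), sub_self, ym_zero]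
        rfl
      rw [h1, map_one, smul_eq_mul, mul_one]
      exact mem_support_iff.1 ht
    · intro t' ht' hne
      rw [map_smul, g.hP (yR (ex t' - ex t)) (ex t' - ex t) (hG t' ht')
        (fun h => hne (ex_inj (sub_eq_zero.1 h))) (hyR _ (hG t' ht')), smul_zero]
    · intro h
      exact absurd htG h
  · rw [map_sum, AddSubmonoidClass.coe_finsetSum, Finset.sum_mul]
    refine Finset.sum_congr rfl fun t' ht' => ?_
    rw [jo_monomial, SetLike.val_smul, hyR _ (hG t' ht'), Algebra.smul_def, mul_assoc, ← ym_add,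
      sub_add_cancel]

end

theorem nb3 : S_NB3 := by
  intro n K _ _ _ _ _ g s p
  classical
  let F : Fin s → (Fin n →₀ ℕ) → Finset (Fin n →₀ ℕ) → g.X.R := fun j t G =>
    if h : t ∈ (p j).support ∧ t ∈ G ∧ ∀ t' ∈ G, ex t' - ex t ∈ Cn g.E then
      (nb3_fun g (p j) t h.1 G h.2.1 h.2.2).choose else 1
  have hF : ∀ j t G, g.P (F j t G) ≠ 0 := by
    intro j t G
    simp only [F]
    split_ifs with h
    · exact (nb3_fun g (p j) t h.1 G h.2.1 h.2.2).choose_spec.1
    · rw [map_one]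
      exact one_ne_zero
  refine ⟨∏ j, ∏ t ∈ (p j).support, ∏ G ∈ (p j).support.powerset, F j t G, ?_, ?_⟩
  · simp only [map_prod]
    exact Finset.prod_ne_zero_iff.2 fun j _ => Finset.prod_ne_zero_iff.2 fun t _ =>
      Finset.prod_ne_zero_iff.2 fun G _ => hF j t G
  · intro Q hQ v hv j t ht G hG htG hC
    simp only [map_prod] at hQ
    have h1 : Q (F j t G) ≠ 0 := Finset.prod_ne_zero_iff.1 (Finset.prod_ne_zero_iff.1
      (Finset.prod_ne_zero_iff.1 hQ j (Finset.mem_univ j)) t ht) G (Finset.mem_powerset.2 hG)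
    have h2 : jo (Fin n) K (∑ t' ∈ G, monomial t' ((p j).coeff t')) =
        (F j t G : K) * ym K (ex t) := by
      have hcond : t ∈ (p j).support ∧ t ∈ G ∧ ∀ t' ∈ G, ex t' - ex t ∈ Cn g.E := ⟨ht, htG, hC⟩
      simp only [F, dif_pos hcond]
      exact (nb3_fun g (p j) t ht G htG hC).choose_spec.2
    have h3 : ((F j t G : g.X.R) : K) ≠ 0 := by
      intro h0
      apply h1
      have : F j t G = 0 := Subtype.ext h0
      rw [this, map_zero]
    have h4 : v.ord ((F j t G : g.X.R) : K) = 0 := by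
      obtain ⟨⟨S, -, hRS, hSv⟩, hcen⟩ := hv
      have h5 := v.ord_nonneg h3 (hSv.1 _ (hRS (F j t G).2))
      have h6 : ¬ v.Pos ((F j t G : g.X.R) : K) := fun h7 => h1 ((hcen (F j t G)).1 h7)
      by_contra h7
      exact h6 (Or.inr (by omega))
    rw [h2, v.map_mul _ _ h3 (ym_ne _), h4, zero_add, ord_ym]

end Pool.Agent.N148.LS
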