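import Mathlib
import Pool.Agent.N148.LS.Stm

set_option autoImplicit false

/-!
Project LS (helper148), part SEP: separation of the classes of monomials by Euler operators
(helper543).
-/

namespace Pool.Agent.N148.LS

open Pool.Agent.H436R3.Fol hiding ex
open MvPolynomial Pool.Agent.TH165.ACC

namespace SepAux

theorem theta_coeff {n : ℕ} (a : Fin n → ℤ) (f : MvPolynomial (Fin n) ℂ) (s : Fin n →₀ ℕ) :
    (∑ i, (a i : ℂ) • (X i * pderiv i f)).coeff s = ((pr (ex s) a : ℤ) : ℂ) * f.coeff s := by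
  rw [coeff_sum]
  simp only [coeff_smul, coeff_euler, smul_eq_mul, pr, ex]
  push_cast
  rw [Finset.sum_mul]
  refine Finset.sum_congr rfl fun i _ => ?_
  ring

theorem pr_sub' {n : ℕ} (m m' u : Fin n → ℤ) : pr (m - m') u = pr m u - pr m' u := by
  simp only [pr, Pi.sub_apply, sub_mul, Finset.sum_sub_distrib]

end SepAux

open SepAux in
theorem sep : S_SEP := by
  classical
  intro n 𝔭 T h t G hG hh hn
  by_contra hcon
  push Not at hcon
  have key : ∀ W : Finset (Fin n →₀ ℕ), Disjoint W G → W ⊆ h.support →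
      ∃ f ∈ 𝔭, f.support ⊆ h.support ∧ (∀ s ∈ G, f.coeff s = h.coeff s) ∧
        ∀ s ∈ W, f.coeff s = 0 := by
    intro W
    induction W using Finset.induction_on with
    | empty =>
      intro _ _
      exact ⟨h, hh, subset_rfl, fun _ _ => rfl, by simp⟩
    | insert s₀ W hs₀ ih =>
      intro hd hs
      obtain ⟨f, hf, hf1, hf2, hf3⟩ := ih (hd.mono_left (Finset.subset_insert _ _))
        ((Finset.subset_insert _ _).trans hs)
      have h1 : s₀ ∉ G := fun h => Finset.disjoint_left.1 hd (Finset.mem_insert_self _ _) h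
      have h2 : s₀ ∈ h.support := hs (Finset.mem_insert_self _ _)
      have h3 : ∃ a ∈ T, pr (ex s₀ - ex t) a ≠ 0 := by
        by_contra hc
        push Not at hc
        exact h1 ((hG s₀).2 ⟨h2, hc⟩)
      obtain ⟨a, ha, hc⟩ := h3
      have hc0 : ((pr (ex s₀ - ex t) a : ℤ) : ℂ) ≠ 0 := by exact_mod_cast hc
      have hco : ∀ s, ((-(1 / ((pr (ex s₀ - ex t) a : ℤ) : ℂ))) •
          (∑ i, (a i : ℂ) • (X i * pderiv i f) - ((pr (ex s₀) a : ℤ) : ℂ) • f)).coeff s =
          -(1 / ((pr (ex s₀ - ex t) a : ℤ) : ℂ)) *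
            ((((pr (ex s) a : ℤ) : ℂ) - ((pr (ex s₀) a : ℤ) : ℂ)) * f.coeff s) := by
        intro s
        rw [coeff_smul, coeff_sub, theta_coeff, coeff_smul, smul_eq_mul, smul_eq_mul, sub_mul]
      refine ⟨_, 𝔭.smul_mem (-(1 / ((pr (ex s₀ - ex t) a : ℤ) : ℂ)))
        (𝔭.sub_mem (hcon f hf hf1 a ha) (𝔭.smul_mem ((pr (ex s₀) a : ℤ) : ℂ) hf)), ?_, ?_, ?_⟩
      · intro s hs'
        rw [mem_support_iff, hco] at hs'
        exact hf1 (mem_support_iff.2 (right_ne_zero_of_mul (right_ne_zero_of_mul hs')))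
      · intro s hsG
        rw [hco, hf2 s hsG]
        have h4 := ((hG s).1 hsG).2 a ha
        rw [pr_sub', sub_eq_zero] at h4
        rw [h4]
        have h5 : ((pr (ex s₀ - ex t) a : ℤ) : ℂ) =
            ((pr (ex s₀) a : ℤ) : ℂ) - ((pr (ex t) a : ℤ) : ℂ) := by
          rw [pr_sub']
          push_cast
          rfl
        rw [h5] at hc0 ⊢
        field_simp
        ring
      · intro s hsW
        rw [hco]
        rcases Finset.mem_insert.1 hsW with rfl | hsW
        · rw [sub_self, zero_mul, mul_zero]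
        · rw [hf3 s hsW, mul_zero, mul_zero]
  obtain ⟨f, hf, hf1, hf2, hf3⟩ := key (h.support \ G) Finset.sdiff_disjoint Finset.sdiff_subset
  apply hn
  have hfe : f = ∑ s ∈ G, monomial s (h.coeff s) := by
    ext s
    rw [coeff_sum]
    simp only [coeff_monomial]
    rw [Finset.sum_ite_eq' G s (fun j => h.coeff j)]
    split_ifs with hs
    · exact hf2 s hs
    · by_cases h1 : s ∈ h.support
      · exact hf3 s (Finset.mem_sdiff.2 ⟨h1, hs⟩)
      · exact notMem_support_iff.1 fun h2 => h1 (hf1 h2)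
  rw [← hfe]
  exact hf

end Pool.Agent.N148.LS
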