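import Mathlib
import Pool.Agent.N148.LS.Stm

/-!
# Existence of points of the torus on the centre of a divisor
-/

set_option autoImplicit false
set_option linter.unusedSectionVars false

namespace Pool.Agent.N148.LS

open Pool.Agent.H436R3.Fol hiding ex
open Pool.Agent.H436R3.KT Pool.Agent.W497.Mld MvPolynomial
open Pool.Agent.TH165.ACC

theorem xi : S_XI := by
  intro n K _ _ _ _ _ v π hπ h1 q₀ hq₀
  classical
  let 𝔭 : Ideal (MvPolynomial (Fin n) ℂ) := (mvI v).comap (Phi hπ h1)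
  have h𝔭 : 𝔭.IsPrime := Ideal.IsPrime.comap _
  have hX : ∀ i, (X i : MvPolynomial (Fin n) ℂ) ∉ 𝔭 := by
    intro i hi
    have h2 : (Phi hπ h1 (X i) : K) = cv K i * π ^ (-v.ord (cv K i)) := by
      rw [Phi, coe_eval₂Hom, eval₂_X]
    have h3 : v.Pos (cv K i * π ^ (-v.ord (cv K i))) := by
      rw [← h2]
      exact hi
    rcases h3 with h3 | h3
    · exact mul_ne_zero (cv_ne i) (zpow_ne_zero _ hπ) h3
    · rw [v.map_mul _ _ (cv_ne i) (zpow_ne_zero _ hπ), v.ord_zpow hπ, h1] at h3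
      omega
  have hq : q₀ ∉ 𝔭 := hq₀
  obtain ⟨ξ, hξ𝔭, hξ, hξq⟩ : ∃ ξ ∈ zeroLocus ℂ 𝔭, (∀ i, ξ i ≠ 0) ∧ eval ξ q₀ ≠ 0 := by
    by_contra h2
    push Not at h2
    have h3 : q₀ * (∏ i, (X i : MvPolynomial (Fin n) ℂ)) ∈
        vanishingIdeal ℂ (zeroLocus ℂ 𝔭) := by
      rw [mem_vanishingIdeal_iff]
      intro ξ hξ
      rw [map_mul]
      by_cases hc : ∀ i, ξ i ≠ 0
      · have h4 := h2 ξ hξ hc
        have h5 : aeval ξ q₀ = 0 := by
          rw [← h4, ← coe_aeval_eq_eval]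
          rfl
        rw [h5, zero_mul]
      · push Not at hc
        obtain ⟨i, hi⟩ := hc
        rw [map_prod, Finset.prod_eq_zero (Finset.mem_univ i) (by rw [aeval_X, hi]), mul_zero]
    rw [vanishingIdeal_zeroLocus_eq_radical, h𝔭.radical] at h3
    rcases h𝔭.mem_or_mem h3 with h4 | h4
    · exact hq h4
    · rw [h𝔭.prod_mem_iff] at h4
      obtain ⟨i, -, hi⟩ := h4
      exact hX i hi
  refine ⟨ξ, hξ, hξq, ?_⟩
  intro q hqv
  have hq𝔭 : q ∈ 𝔭 := hqv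
  have := mem_zeroLocus_iff.1 hξ𝔭 q hq𝔭
  rwa [← coe_aeval_eq_eval]

end Pool.Agent.N148.LS
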